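import Pool.Agent.Lib.MP_52aaf2_al.LX.Stm
import Pool.Agent.Lib.MP_52aaf2_al.LX.LemB

/-!
# MP_52aaf2_al, project LX: assembly of the main induction
-/

open Polynomial IntermediateField

namespace MP52exp

section

variable {K M : Type} [Field K] [Field M] [Algebra ℝ K] [Algebra ℝ M] {S : Sys K M}

theorem tau_zero {y : K →ₐ[ℝ] M} {δ : Derivation ℝ M M} (h : ∀ x, δ (y x) = 0) (c : Bool) :
    tau S c y δ = 0 := by
  cases c
  · change δ (y S.E) / y S.E = 0
    rw [h, zero_div]
  · exact h _

theorem sum_two (f : ℕ → M) {r k : ℕ} (hk : k ≤ r)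
    (hf : ∀ l < r, l ≠ k → l + 1 ≠ k → f l = 0) :
    ∑ l ∈ Finset.range r, f l = (if 1 ≤ k then f (k - 1) else 0) + (if k < r then f k else 0) := by
  have h1 : ∀ l ∈ Finset.range r, f l = (if l + 1 = k then f l else 0) +
      (if l = k then f l else 0) := by
    intro l hl
    rw [Finset.mem_range] at hl
    by_cases h2 : l + 1 = k
    · rw [if_pos h2, if_neg (by omega), add_zero]
    · rw [if_neg h2, zero_add]
      by_cases h3 : l = k
      · rw [if_pos h3]
      · rw [if_neg h3, hf l hl h3 h2]
  rw [Finset.sum_congr rfl h1, Finset.sum_add_distrib]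
  congr 1
  · by_cases h2 : 1 ≤ k
    · rw [if_pos h2, Finset.sum_eq_single (k - 1)]
      · rw [if_pos (by omega)]
      · intro l _ hl
        rw [if_neg (by omega)]
      · intro h3
        exact absurd (Finset.mem_range.2 (by omega)) h3
    · rw [if_neg h2]
      refine Finset.sum_eq_zero fun l _ => ?_
      rw [if_neg (by omega)]
  · rw [Finset.sum_ite_eq' (Finset.range r) k f]
    simp only [Finset.mem_range]

/-- the key equations -/
theorem lkey (hD : LDer) (hR : LRel) (hG : LGn) : LKey := by
  intro K M _ _ _ _ S b Z P hP r y t n hch hQ hr m hm k hk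
  have := charM M
  obtain ⟨⟨hZ0, hP0, hPZ, hZP⟩, -⟩ := hG K M S b Z P hP
  obtain ⟨δ, h1, h2, h3⟩ := hD K M S Z P hZ0 hPZ r y t n (hch.mono (by omega)) hQ hr k hk
  obtain ⟨s, rfl⟩ : ∃ s, r = s + 1 := ⟨r - 1, by omega⟩
  have hlink := hch.link s (by omega)
  have hn : δ ((n s : ℤ) : M) = 0 := by
    rw [int_eq, Derivation.map_algebraMap]
  refine ⟨δ, h1, h2, h3, ?_, ?_, ?_⟩
  · intro hkr
    rw [hlink, map_add, hn, add_zero]
    by_cases h4 : s = k
    · exact (h3 s (by omega) h4).2
    · exact h1 s (by omega) h4 (by omega) _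
  · intro hkr
    rw [hlink, map_add, hn, add_zero]
    exact (h2 s (by omega) hkr.symm).2
  · intro c
    have h4 := hR K M S (s + 1 + 1) y hch.pt m hm c δ
    rw [Finset.sum_range_succ, sum_two (fun l => (m l : M) * tau S c (y l) δ) hk] at h4
    · exact h4
    · intro l hl h5 h6
      change (m l : M) * tau S c (y l) δ = 0
      rw [tau_zero (fun x => h1 l hl h5 h6 x) c, mul_zero]

/-- the induction -/
theorem lind (hB : LemBp) (hCP : LCasP) (hMu : LMu) (h2 : LM2) (h3 : LM3) (h4 : LM4) : LInd := by
  intro K M _ _ _ _ S b Z P hP r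
  have hPX : S.DX P ≠ 0 := by
    cases b
    · exact hP.h2
    · exact hP.h1
  have hPE : S.DE P ≠ 0 := by
    cases b
    · exact hP.h1
    · exact hP.h2
  have hM := charM M
  induction r with
  | zero => intro y t n _ m _ j hj; omega
  | succ r ih =>
    intro y t n hch
    rcases Nat.eq_zero_or_pos r with h0 | h0
    · subst h0
      exact qInd_one (hch.pt 0 (by omega))
    · intro m hm j hj
      have hQ := ih y t n (hch.mono (by omega))
      by_cases hmr : m r = 0
      · have h1 := hQ m (by
          obtain ⟨c, hc⟩ := hm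
          refine ⟨c, ?_⟩
          rw [Finset.sum_range_succ, hmr] at hc
          simpa using hc)
        rcases Nat.lt_succ_iff_lt_or_eq.1 hj with h | h
        · exact h1 j h
        · rw [h]; exact hmr
      · exfalso
        by_cases hm0 : m 0 = 0
        · have h1 := ih _ _ _ hch.shift (fun j => m (j + 1)) (by
            obtain ⟨c, hc⟩ := hm
            refine ⟨c, ?_⟩
            rw [Finset.sum_range_succ', hm0] at hc
            simpa using hc) (r - 1) (by omega)
          apply hmr
          have e : r - 1 + 1 = r := by omega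
          simpa [e] using h1
        · cases htr : t r with
          | true => exact hCP K M S b Z P hP r y t n hch hQ h0 htr m hm0 hmr hm
          | false =>
            have ht0 := (hMu K M S b Z P hP r y t n hch hQ h0 htr m hm0 hmr hm).1
            by_cases hr1 : r = 1
            · subst hr1
              obtain ⟨c, hc⟩ := hm
              have hl := hch.link 0 (by omega)
              have hv := hch.v 0 (by omega) (by rw [ht0, htr]; simp)
              rw [htr, ht0] at hl
              rw [Finset.sum_range_succ, Finset.sum_range_one] at hc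
              refine hB K M S P hPX hPE (y 0) (hch.pt 0 (by omega)) (y 1) (hch.pt 1 (by omega))
                (m 1) (- m 0) hmr (neg_ne_zero.2 hm0) c ?_ (n 0) hv hl
              push_cast
              linear_combination hc
            · have hr2 : 2 ≤ r := by omega
              cases ht1 : t 1 with
              | true => exact h2 K M S b Z P hP r y t n hch hQ hr2 htr ht1 m hm0 hmr hm
              | false =>
                obtain ⟨hm1, g, hg, hPg⟩ :=
                  h3 K M S b Z P hP r y t n hch hQ hr2 htr ht1 m hm0 hmr hm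
                exact h4 K M S b Z P hP r y t n hch hQ hr2 htr ht1 m hm0 hmr hm1 hm g hg hPg

/-- the first incoming element does not depend on the last outgoing one -/
theorem lend (hE : EndG) (hPr : LPre) {Z P : K} (hZ : Z ∉ acl ℝ (∅ : Set K))
    (hPZ : P ∉ acl ℝ ({Z} : Set K))
    (hI : ∀ (r : ℕ) (y : ℕ → (K →ₐ[ℝ] M)) (t : ℕ → Bool) (n : ℕ → ℤ), LChain S Z P r y t n →
      QInd S r y) (r : ℕ) (y : ℕ → (K →ₐ[ℝ] M)) (t : ℕ → Bool) (n : ℕ → ℤ)
    (hch : LChain S Z P r y t n) (hr : 1 ≤ r) :
    y 0 (inL Z P (t 0)) ∉ acl ℝ ({y (r - 1) (outL Z P (t (r - 1)))} : Set M) :=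
  hE K M S r y (fun j => inL Z P (t j)) (fun j => outL Z P (t j))
    (hPr K M S Z P hZ hPZ r y t n hch) (hI r y t n hch) hr

end

end MP52exp
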