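import Pool.Agent.Lib.MP_52aaf2_al.EX.Fin
import Pool.Agent.Lib.MP_52aaf2_al.LX.Asm

/-!
# MP_52aaf2_al, project LX: the theorem for a coordinate `T`
-/

open Filter Topology IntermediateField

open MP52aaf2 (GermGroup germ alpha FreePair IsAlgGerm IsAlgFun)

namespace MP52exp

theorem mmk_symm_notMem {T : ℝ ≃o ℝ} (hT : T ∈ AnG) :
    mmk (fun x => T.symm x) hT.2 ∉ acl ℝ (∅ : Set MG) := by
  obtain ⟨S, hS⟩ := s_nsys 1 one_pos
  obtain ⟨y, hy, hyv⟩ := hS.pt T.symm ⟨hT.2, hT.1⟩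
  intro h
  apply S.pt_ne y hy
  have h1 : y S.X = mmk (fun x => T.symm x) hT.2 := by
    rw [hS.X_eq]
    exact hyv (kx 1) (fun x => x) evAn_id hT.2 rfl
  rw [h1]
  exact (P_dst ℝ MG ∅ S.D).2 (by simp) _ h

/-- membership in the relative algebraic closure, in `KF 1` and in `MG` -/
theorem mem_kf {F G : KF 1} : F ∈ acl ℝ ({G} : Set (KF 1)) ↔ (F : MG) ∈ acl ℝ ({(G : MG)} : Set MG) := by
  rw [P_trn ℝ (KF 1) MG (KF 1).val _ F, Set.image_singleton]
  rfl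

theorem mem_kf0 {F : KF 1} : F ∈ acl ℝ (∅ : Set (KF 1)) ↔ (F : MG) ∈ acl ℝ (∅ : Set MG) := by
  rw [P_trn ℝ (KF 1) MG (KF 1).val _ F, Set.image_empty]
  rfl

theorem lmain (hF : LFac) (hGn : LGn) (hI : LInd) (hPr : LPre) (hDI : LDgI) (hAf : LAf)
    (hWb : LWb) {T β : ℝ ≃o ℝ} (hT : T ∈ AnG) (hβ : β ∈ AnG) (b : Bool)
    (hZT : mmk (fun x => T.symm x) hT.2 ∈ acl ℝ ({bif b then xx else ee 1} : Set MG))
    (hg : EvAn fun x => β (T.symm x)) (hPK : mmk _ hg ∈ KF 1)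
    (hTa : b = true → ¬ ∃ a c : ℝ, ∀ᶠ x in atTop, T x = a * x + c)
    (hβ0 : ¬ ∃ Q : MvPolynomial (Fin 2) ℝ, Q ≠ 0 ∧
      ∀ᶠ x in atTop, MvPolynomial.aeval ![x, β x] Q = 0)
    (hβT : b = false → ¬ ∃ a c : ℝ, ∀ᶠ x in atTop, β x = a * T x + c) :
    FreePair alpha (germ β) := by
  obtain ⟨S, hS⟩ := s_nsys 1 one_pos
  have hZK : mmk (fun x => T.symm x) hT.2 ∈ KF 1 := by
    refine acl_mono ?_ hZT
    cases b <;> simp
  obtain ⟨Z, hZe⟩ : ∃ Z : KF 1, (Z : MG) = mmk (fun x => T.symm x) hT.2 := ⟨⟨_, hZK⟩, rfl⟩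
  obtain ⟨P, hPe⟩ : ∃ P : KF 1, (P : MG) = mmk _ hg := ⟨⟨_, hPK⟩, rfl⟩
  have hZ0 : Z ∉ acl ℝ (∅ : Set (KF 1)) := by
    rw [mem_kf0, hZe]
    exact mmk_symm_notMem hT
  have hZ : Z ∈ acl ℝ ({VV S b} : Set (KF 1)) := by
    rw [mem_kf, hZe]
    have e : ((VV S b : KF 1) : MG) = bif b then xx else ee 1 := by
      cases b
      · change ((S.E : KF 1) : MG) = ee 1
        rw [hS.E_eq]; rfl
      · change ((S.X : KF 1) : MG) = xx
        rw [hS.X_eq]; rfl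
    rw [e]
    exact hZT
  obtain ⟨hV0, hV1, hK, hst, hJb, hk0, hEl⟩ := hF _ _ S b
  have hZV : acl ℝ ({Z} : Set (KF 1)) = acl ℝ ({VV S b} : Set (KF 1)) := by
    refine acl_eq_of_subset ?_ ?_
    · rintro x rfl; exact hZ
    · rintro x rfl
      have h1 : Z ∈ acl ℝ (insert (VV S b) (∅ : Set (KF 1))) := by rwa [insert_empty_eq]
      have h2 := acl_exchange h1 hZ0
      rwa [insert_empty_eq] at h2
  have hw : DD S b Z ∉ acl ℝ (∅ : Set (KF 1)) := by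
    intro h
    cases b with
    | true =>
      obtain ⟨a, c, hac⟩ := hAf S hS Z _ hT.2 hZe hZ h
      apply hTa rfl
      have h1 : ∀ᶠ x in atTop, x = a * T x + c := by
        filter_upwards [T.tendsto_atTop.eventually hac] with x hx
        rwa [T.symm_apply_apply] at hx
      have ha : a ≠ 0 := by
        rintro rfl
        obtain ⟨x, hx, hx'⟩ := (h1.and (eventually_gt_atTop c)).exists
        simp at hx
        exact absurd hx hx'.ne'
      refine ⟨a⁻¹, - (a⁻¹ * c), ?_⟩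
      filter_upwards [h1] with x hx
      field_simp
      linarith
    | false =>
      have h1 : S.DE Z = 0 := hEl rfl Z h
      have h2 : S.DX Z = 0 := (hK Z).2 hZ
      exact hZ0 ((s_jac _ _ S).1 Z h2 h1)
  have h2 : DD S (!b) P ≠ 0 := by
    intro h
    rw [hK P, ← hZV, mem_kf, hZe, hPe] at h
    obtain ⟨Q, hQ0, hQ⟩ := s_dic.2.1 _ _ _ _ h
    apply hβ0
    refine ⟨Q, hQ0, ?_⟩
    filter_upwards [T.tendsto_atTop.eventually hQ] with x hx
    rwa [T.symm_apply_apply] at hx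
  have hfin : Z ∉ acl ℝ (∅ : Set (KF 1)) → P ∉ acl ℝ ({Z} : Set (KF 1)) →
      (∀ (r : ℕ) (y : ℕ → (KF 1 →ₐ[ℝ] MG)) (t : ℕ → Bool) (n : ℕ → ℤ), LChain S Z P r y t n →
        QInd S r y) → FreePair alpha (germ β) := fun h3 h4 h5 =>
    hWb 1 S hS T β hT hβ Z P hT.2 hg hZe hPe fun r y t n hch hr =>
      lend s_endg hPr h3 h4 h5 r y t n hch hr
  by_cases h1 : DD S b P = 0
  · -- the degenerate case
    obtain ⟨-, -, hK', -, -, -, hEl'⟩ := hF _ _ S (!b)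
    have hP : P ∈ acl ℝ ({VV S (!b)} : Set (KF 1)) := by
      rw [← hK' P, Bool.not_not]
      exact h1
    have hw' : DD S (!b) P ∉ acl ℝ (∅ : Set (KF 1)) := by
      intro h
      cases b with
      | true => exact h2 (hEl' rfl P h)
      | false =>
        obtain ⟨a, c, hac⟩ := hAf S hS P _ hg hPe hP h
        apply hβT rfl
        refine ⟨a, c, ?_⟩
        filter_upwards [T.tendsto_atTop.eventually hac] with x hx
        rwa [T.symm_apply_apply] at hx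
    obtain ⟨⟨h3, h4⟩, h5⟩ := hDI _ _ S b Z P ⟨hZ, hP, hw, hw'⟩
    exact hfin h3 h4 h5
  · -- the generic case
    have hG : LGen S b Z P := ⟨hZ, hw, h1, h2⟩
    obtain ⟨⟨h3, -, h4, -⟩, -⟩ := hGn _ _ S b Z P hG
    exact hfin h3 h4 (hI _ _ S b Z P hG)

end MP52exp
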