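import Pool.Agent.Lib.MP_52aaf2_al.LX.Core

/-!
# MP_52aaf2_al, project LX: the two cases
-/

open Filter Topology IntermediateField

open MP52aaf2 (GermGroup germ alpha FreePair IsAlgGerm IsAlgFun)

namespace MP52exp

/-- swapping the two variables -/
theorem swap_rel {f g : ℝ → ℝ} (h : ∃ Q : MvPolynomial (Fin 2) ℝ, Q ≠ 0 ∧
    ∀ᶠ x in atTop, MvPolynomial.aeval ![f x, g x] Q = 0) :
    ∃ Q : MvPolynomial (Fin 2) ℝ, Q ≠ 0 ∧
      ∀ᶠ x in atTop, MvPolynomial.aeval ![g x, f x] Q = 0 := by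
  obtain ⟨Q, hQ0, hQ⟩ := h
  refine ⟨MvPolynomial.rename (Equiv.swap (0 : Fin 2) 1) Q, ?_, ?_⟩
  · intro h0
    apply hQ0
    apply MvPolynomial.rename_injective _ (Equiv.swap (0 : Fin 2) 1).injective
    rw [h0, map_zero]
  · filter_upwards [hQ] with x hx
    rw [MvPolynomial.aeval_rename]
    rw [← hx]
    congr 2
    ext i
    fin_cases i <;> simp

/-- an algebraic order isomorphism is in `AnG` -/
theorem alg_AnG (hK : LK3) {h : ℝ ≃o ℝ} (hh : ∃ Q : MvPolynomial (Fin 2) ℝ, Q ≠ 0 ∧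
    ∀ᶠ x in atTop, MvPolynomial.aeval ![x, h x] Q = 0) : h ∈ AnG :=
  s_an2 1 one_pos h (hK.2 (fun x => h x) hh)

theorem ee_notMem : ee 1 ∉ acl ℝ ({xx} : Set MG) := by
  obtain ⟨⟨h1, h2⟩, -⟩ := s_nk 1 one_pos
  intro h
  have h3 : ee 1 ∈ acl ℝ (insert xx (∅ : Set MG)) := by rwa [insert_empty_eq]
  have h4 := acl_exchange h3 h1
  rw [insert_empty_eq] at h4
  exact h2 h4

theorem xx_notMem0 : xx ∉ acl ℝ (∅ : Set MG) := fun h =>
  (s_nk 1 one_pos).1.2 (acl_mono (by simp) h)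

/-- **Case A.** -/
theorem caseA (hmain : ∀ {T β : ℝ ≃o ℝ} (hT : T ∈ AnG) (_ : β ∈ AnG) (b : Bool)
      (_ : mmk (fun x => T.symm x) hT.2 ∈ acl ℝ ({bif b then xx else ee 1} : Set MG))
      (hg : EvAn fun x => β (T.symm x)) (_ : mmk _ hg ∈ KF 1)
      (_ : b = true → ¬ ∃ a c : ℝ, ∀ᶠ x in atTop, T x = a * x + c)
      (_ : ¬ ∃ Q : MvPolynomial (Fin 2) ℝ, Q ≠ 0 ∧
        ∀ᶠ x in atTop, MvPolynomial.aeval ![x, β x] Q = 0)
      (_ : b = false → ¬ ∃ a c : ℝ, ∀ᶠ x in atTop, β x = a * T x + c),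
      FreePair alpha (germ β)) (hEl : LEl) (hK3 : LK3)
    {h β : ℝ ≃o ℝ} (hh : ∃ Q : MvPolynomial (Fin 2) ℝ, Q ≠ 0 ∧
      ∀ᶠ x in atTop, MvPolynomial.aeval ![x, h x] Q = 0)
    (ha : ¬ ∃ a c : ℝ, ∀ᶠ x in atTop, h x = a * x + c)
    (h0 : ¬ ∃ Q : MvPolynomial (Fin 2) ℝ, Q ≠ 0 ∧
      ∀ᶠ x in atTop, MvPolynomial.aeval ![x, β x] Q = 0)
    (h1 : ∃ Q : MvPolynomial (Fin 3) ℝ, Q ≠ 0 ∧
      ∀ᶠ x in atTop, MvPolynomial.aeval ![x, Real.exp (h x), β x] Q = 0) :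
    FreePair alpha (germ β) := by
  have hA := alg_AnG hK3 hh
  have hsym : ∃ Q : MvPolynomial (Fin 2) ℝ, Q ≠ 0 ∧
      ∀ᶠ x in atTop, MvPolynomial.aeval ![x, h.symm x] Q = 0 := by
    apply swap_rel
    obtain ⟨Q, hQ0, hQ⟩ := hh
    refine ⟨Q, hQ0, ?_⟩
    filter_upwards [h.symm.tendsto_atTop.eventually hQ] with x hx
    rwa [h.apply_symm_apply] at hx
  have hZ : mmk (fun x => h.symm x) hA.2 ∈ acl ℝ ({xx} : Set MG) :=
    s_dic.2.2 (fun x => x) (fun x => h.symm x) evAn_id hA.2 xx_notMem0 hsym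
  obtain ⟨Q, hQ0, hQ⟩ := h1
  have hrel : ∃ Q : MvPolynomial (Fin 3) ℝ, Q ≠ 0 ∧
      ∀ᶠ x in atTop, MvPolynomial.aeval ![h.symm x, Real.exp (1 * x), β (h.symm x)] Q = 0 := by
    refine ⟨Q, hQ0, ?_⟩
    filter_upwards [h.symm.tendsto_atTop.eventually hQ] with x hx
    rw [h.apply_symm_apply] at hx
    rw [one_mul]
    exact hx
  have hv : ee 1 ∉ acl ℝ ({mmk (fun x => h.symm x) hA.2} : Set MG) := by
    intro h2
    refine ee_notMem (acl_le_of_subset ?_ h2)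
    rintro x rfl
    exact hZ
  have hE := hEl (fun x => h.symm x) (fun x => Real.exp (1 * x)) hA.2 (evAn_exp 1)
    (acl_mono (by simp) hZ) (show ee 1 ∈ KF 1 from subset_acl _ (by simp)) (mmk_symm_notMem hA) hv
    (fun x => β (h.symm x)) hrel
  have hβ' : β * h⁻¹ ∈ AnG := s_an2 1 one_pos (β * h⁻¹) hE
  have hβ : β ∈ AnG := by
    have := mul_mem hβ' hA
    rwa [inv_mul_cancel_right] at this
  exact hmain hA hβ true hZ hβ'.1 (hK3.1 _ _ hE) (fun _ => ha) h0 (by simp)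

/-- **Case B.** -/
theorem caseB (hmain : ∀ {T β : ℝ ≃o ℝ} (hT : T ∈ AnG) (_ : β ∈ AnG) (b : Bool)
      (_ : mmk (fun x => T.symm x) hT.2 ∈ acl ℝ ({bif b then xx else ee 1} : Set MG))
      (hg : EvAn fun x => β (T.symm x)) (_ : mmk _ hg ∈ KF 1)
      (_ : b = true → ¬ ∃ a c : ℝ, ∀ᶠ x in atTop, T x = a * x + c)
      (_ : ¬ ∃ Q : MvPolynomial (Fin 2) ℝ, Q ≠ 0 ∧
        ∀ᶠ x in atTop, MvPolynomial.aeval ![x, β x] Q = 0)
      (_ : b = false → ¬ ∃ a c : ℝ, ∀ᶠ x in atTop, β x = a * T x + c),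
      FreePair alpha (germ β)) (hEl : LEl) (hK3 : LK3) (hL : LLg)
    {h β : ℝ ≃o ℝ} (hh : ∃ Q : MvPolynomial (Fin 2) ℝ, Q ≠ 0 ∧
      ∀ᶠ x in atTop, MvPolynomial.aeval ![x, h x] Q = 0)
    (ha : ¬ ∃ a c : ℝ, ∀ᶠ x in atTop, β x = a * Real.log (h x) + c)
    (h0 : ¬ ∃ Q : MvPolynomial (Fin 2) ℝ, Q ≠ 0 ∧
      ∀ᶠ x in atTop, MvPolynomial.aeval ![x, β x] Q = 0)
    (h1 : ∃ Q : MvPolynomial (Fin 3) ℝ, Q ≠ 0 ∧
      ∀ᶠ x in atTop, MvPolynomial.aeval ![x, Real.log (h x), β x] Q = 0) :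
    FreePair alpha (germ β) := by
  obtain ⟨l, hl, hl1, hl2⟩ := hL
  have hh' := alg_AnG hK3 hh
  obtain ⟨T, hTe⟩ : ∃ T : ℝ ≃o ℝ, T = l * h := ⟨_, rfl⟩
  have hA : T ∈ AnG := by rw [hTe]; exact mul_mem hl hh'
  have hT1 : ∀ x, T x = l (h x) := fun x => by rw [hTe]; rfl
  have hT2 : ∀ x, h (T.symm x) = l.symm x := fun x => by
    have : T (T.symm x) = x := T.apply_symm_apply x
    rw [hT1] at this
    rw [← this, l.symm_apply_apply, this]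
  have hT3 : ∀ᶠ x in atTop, h (T.symm x) = Real.exp (1 * x) := by
    filter_upwards [hl2] with x hx
    rw [hT2]
    exact hx
  have hsym : ∃ Q : MvPolynomial (Fin 2) ℝ, Q ≠ 0 ∧
      ∀ᶠ x in atTop, MvPolynomial.aeval ![Real.exp (1 * x), T.symm x] Q = 0 := by
    apply swap_rel
    obtain ⟨Q, hQ0, hQ⟩ := hh
    refine ⟨Q, hQ0, ?_⟩
    filter_upwards [T.symm.tendsto_atTop.eventually hQ, hT3] with x hx hx'
    rwa [hx'] at hx
  obtain ⟨⟨hn1, hn2⟩, -⟩ := s_nk 1 one_pos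
  have hZ : mmk (fun x => T.symm x) hA.2 ∈ acl ℝ ({ee 1} : Set MG) :=
    s_dic.2.2 (fun x => Real.exp (1 * x)) (fun x => T.symm x) (evAn_exp 1) hA.2 hn1 hsym
  obtain ⟨Q, hQ0, hQ⟩ := h1
  have hrel : ∃ Q : MvPolynomial (Fin 3) ℝ, Q ≠ 0 ∧
      ∀ᶠ x in atTop, MvPolynomial.aeval ![T.symm x, x, β (T.symm x)] Q = 0 := by
    refine ⟨Q, hQ0, ?_⟩
    filter_upwards [T.symm.tendsto_atTop.eventually hQ, hT3] with x hx hx'
    rw [hx', Real.log_exp, one_mul] at hx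
    exact hx
  have hv : xx ∉ acl ℝ ({mmk (fun x => T.symm x) hA.2} : Set MG) := by
    intro h2
    refine hn2 (acl_le_of_subset ?_ h2)
    rintro x rfl
    exact hZ
  have hE := hEl (fun x => T.symm x) (fun x => x) hA.2 evAn_id
    (acl_mono (by simp) hZ) (show xx ∈ KF 1 from subset_acl _ (by simp)) (mmk_symm_notMem hA) hv
    (fun x => β (T.symm x)) hrel
  have hβ' : β * T⁻¹ ∈ AnG := s_an2 1 one_pos (β * T⁻¹) hE
  have hβ : β ∈ AnG := by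
    have := mul_mem hβ' hA
    rwa [inv_mul_cancel_right] at this
  refine hmain hA hβ false hZ hβ'.1 (hK3.1 _ _ hE) (by simp) h0 fun _ hac => ha ?_
  obtain ⟨a, c, hac⟩ := hac
  refine ⟨a, c, ?_⟩
  filter_upwards [hac, h.tendsto_atTop.eventually hl1] with x hx hx'
  rw [hx, hT1, hx']

/-- **Case C.** -/
theorem caseC (hC : LC1) (hN : LNf) {h β : ℝ ≃o ℝ} (hh : ∃ Q : MvPolynomial (Fin 2) ℝ, Q ≠ 0 ∧
      ∀ᶠ x in atTop, MvPolynomial.aeval ![x, h x] Q = 0)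
    (ha : ∃ a c : ℝ, ∀ᶠ x in atTop, β x = a * Real.log (h x) + c) :
    IsAlgGerm ((germ β)⁻¹ * alpha * germ β) ∧
      (FreePair alpha (germ β) ↔ FreePair alpha ((germ β)⁻¹ * alpha * germ β)) := by
  obtain ⟨a, c, hac⟩ := ha
  obtain ⟨ha0, hQ⟩ := hC h β a c hac hh
  have h1 := exp_case (inv_pos.2 ha0) (β := OrderIso.symm β) hQ
  have e : germ (OrderIso.symm β) = (germ β)⁻¹ := rfl
  rw [e, inv_inv, ← hN.2] at h1
  exact h1

end MP52exp
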