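import Pool.Agent.Lib.MP_52aaf2_al.EX.Asm
import Pool.Agent.Lib.MP_52aaf2_al.EX.StmA

/-!
# MP_52aaf2_al, project LX: chains with a coordinate

`S : Sys K M` is the setting of project EX with variable `t`: `K` is the field of functions
algebraic over `ℝ(X, E)`, `X = t`, `E = e^t`. The variable `x` is an element `Z` of `K` which is
algebraic over `ℝ(X)` (`b = true`) or over `ℝ(E)` (`b = false`), and `P` is the function `β(x)`.
-/

open Polynomial IntermediateField

namespace MP52exp

section

variable {K M : Type} [Field K] [Field M] [Algebra ℝ K] [Algebra ℝ M] (S : Sys K M)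

/-- `X` (`b = true`) or `E` (`b = false`) -/
def VV (b : Bool) : K := bif b then S.X else S.E

/-- `∂/∂X` (`b = true`) or `E ∂/∂E` (`b = false`) -/
def DD (b : Bool) : Derivation ℝ K K := bif b then S.DX else S.DE

/-- the coordinates of a derivation `δ` at a point `y`: `δ (y X)` or `δ (y E) / y E` -/
noncomputable def tau (b : Bool) (y : K →ₐ[ℝ] M) (δ : Derivation ℝ M M) : M :=
  bif b then δ (y S.X) else δ (y S.E) / y S.E

omit [Algebra ℝ K] in
/-- incoming element of a point: `t = true` for a letter `β`, `t = false` for a letter `β⁻¹` -/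
def inL (Z P : K) (t : Bool) : K := bif t then Z else P

omit [Algebra ℝ K] in
/-- outgoing element of a point -/
def outL (Z P : K) (t : Bool) : K := bif t then P else Z

/-- the chain of a reduced word in `x + 1` and `β` (`Z` is the function `x`, `P` is `β(x)`) -/
structure LChain (Z P : K) (r : ℕ) (y : ℕ → (K →ₐ[ℝ] M)) (t : ℕ → Bool) (n : ℕ → ℤ) : Prop where
  pt : ∀ j < r, y j ∈ S.Pt
  link : ∀ j, j + 1 < r → y (j + 1) (inL Z P (t (j + 1))) = y j (outL Z P (t j)) + (n j : M)
  v : ∀ j, j + 1 < r → t j ≠ t (j + 1) → n j ≠ 0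

variable {S} in
theorem LChain.mono {Z P : K} {r r' : ℕ} (hr : r' ≤ r) {y : ℕ → (K →ₐ[ℝ] M)} {t : ℕ → Bool}
    {n : ℕ → ℤ} (h : LChain S Z P r y t n) : LChain S Z P r' y t n where
  pt j hj := h.pt j (by omega)
  link j hj := h.link j (by omega)
  v j hj := h.v j (by omega)

variable {S} in
theorem LChain.shift {Z P : K} {r : ℕ} {y : ℕ → (K →ₐ[ℝ] M)} {t : ℕ → Bool}
    {n : ℕ → ℤ} (h : LChain S Z P (r + 1) y t n) :
    LChain S Z P r (fun j => y (j + 1)) (fun j => t (j + 1)) (fun j => n (j + 1)) where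
  pt j hj := h.pt (j + 1) (by omega)
  link j hj := h.link (j + 1) (by omega)
  v j hj := h.v (j + 1) (by omega)

/-- The generic case: `Z` is algebraic over `ℝ(X)` resp. `ℝ(E)`, its derivative is not constant,
and `P` depends on `X` and on `E`. -/
structure LGen (b : Bool) (Z P : K) : Prop where
  hZ : Z ∈ acl ℝ ({VV S b} : Set K)
  hw : DD S b Z ∉ acl ℝ (∅ : Set K)
  h1 : DD S b P ≠ 0
  h2 : DD S (!b) P ≠ 0

/-- The degenerate case: one of `Z, P` is algebraic over `ℝ(X)`, the other one over `ℝ(E)`, and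
their derivatives are not constant. -/
structure LDeg (b : Bool) (Z P : K) : Prop where
  hZ : Z ∈ acl ℝ ({VV S b} : Set K)
  hP : P ∈ acl ℝ ({VV S (!b)} : Set K)
  hw : DD S b Z ∉ acl ℝ (∅ : Set K)
  hw' : DD S (!b) P ∉ acl ℝ (∅ : Set K)

/-- `μ = (D_b P) / (D_{!b} P)` -/
noncomputable def muL (b : Bool) (P : K) : K := DD S b P / DD S (!b) P

end

end MP52exp
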