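import Pool.Agent.Lib.MP_52aaf2_al.LX.Stm

/-!
# MP_52aaf2_al, project LX, piece af: an algebraic function with constant derivative is affine
-/

set_option autoImplicit false

open Polynomial IntermediateField Filter Topology

namespace MP52exp

private theorem af_affine {f : ℝ → ℝ} (hf : EvAn f) (c : ℝ)
    (h : ∀ᶠ x in atTop, deriv f x = c) : ∃ d : ℝ, ∀ᶠ x in atTop, f x = c * x + d := by
  obtain ⟨M, hM⟩ := eventually_atTop.1 (hf.and h)
  set g : ℝ → ℝ := fun x => f x - c * x with hg
  have hd : ∀ x ∈ Set.Ioi M, HasDerivAt g 0 x := by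
    intro x hx
    obtain ⟨h1, h2⟩ := hM x (le_of_lt hx)
    have h3 := h1.differentiableAt.hasDerivAt
    rw [h2] at h3
    have h4 : HasDerivAt (fun x : ℝ => c * x) c x := by
      simpa using (hasDerivAt_id x).const_mul c
    have h5 := h3.sub h4
    rw [sub_self] at h5
    exact h5
  have hconst : ∀ x ∈ Set.Ioi M, g x = g (M + 1) := by
    intro x hx
    refine IsOpen.is_const_of_deriv_eq_zero isOpen_Ioi isPreconnected_Ioi
      (fun y hy => (hd y hy).differentiableAt.differentiableWithinAt)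
      (fun y hy => (hd y hy).deriv) hx ?_
    exact Set.mem_Ioi.2 (by linarith)
  refine ⟨g (M + 1), ?_⟩
  filter_upwards [eventually_gt_atTop M] with x hx
  have := hconst x hx
  rw [← this, hg]
  ring

/-- [LX af] an algebraic function with constant derivative is affine -/
theorem Q_af (hF : LFac) (hCr : Cr) (hN : NDer) (hDst : Dst) : LAf := by
  intro S hS F f hf hFf hFX hDX
  have h1 : S.DE F = 0 := by
    have h2 := (hF (KF 1) MG S true).2.2.1 F
    exact h2.2 hFX
  obtain ⟨y, -, hy⟩ := hS.pt 1 (one_mem _)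
  have hyF : y F = mmk f hf := hy F f hf hf hFf
  have hyX : y S.X = mmk (fun x => x) evAn_id := by
    refine hy S.X (fun x => x) evAn_id evAn_id ?_
    rw [hS.X_eq]
    rfl
  obtain ⟨D, hD, hDc⟩ := hN
  have hDX1 : D (y S.X) = 1 := by
    rw [hyX, hD]
    have h3 : (1 : MG) = mmk (fun _ => 1) (evAn_const 1) := by
      rw [← algebraMap_MG, map_one]
    rw [h3, mmk_eq]
    exact Eventually.of_forall fun x => by simp
  have h4 := hCr (KF 1) MG S MG y D F
  rw [h1, hDX1, hyF, hD, map_zero, zero_mul, add_zero, mul_one] at h4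
  have h5 : y (S.DX F) ∈ acl ℝ (∅ : Set MG) := by
    rw [mem_acl_empty] at hDX ⊢
    exact hDX.algHom y
  have h6 : D (y (S.DX F)) = 0 :=
    (hDst ℝ MG ∅ D).2 (fun a ha => absurd ha (Set.notMem_empty a)) _ h5
  obtain ⟨c, hc⟩ := hDc _ h6
  rw [← hc, algebraMap_MG, mmk_eq] at h4
  obtain ⟨d, hd⟩ := af_affine hf c h4
  exact ⟨c, d, hd⟩

end MP52exp
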