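import Pool.Agent.Lib.MP_52aaf2_al.LX.Stm

/-! Piece LC1 (`MP_52aaf2_al`) -/

open Polynomial IntermediateField Filter

namespace MP52exp

private theorem lc1_ne (k : ℝ) (hk : k ≠ 0) (Q : MvPolynomial (Fin 2) ℝ) (hQ : Q ≠ 0) :
    MvPolynomial.aeval (![MvPolynomial.X 1, MvPolynomial.C k * MvPolynomial.X 0] :
      Fin 2 → MvPolynomial (Fin 2) ℝ) Q ≠ 0 := by
  intro h0
  apply hQ
  have h1 : (MvPolynomial.aeval (![MvPolynomial.C k⁻¹ * MvPolynomial.X 1, MvPolynomial.X 0] :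
      Fin 2 → MvPolynomial (Fin 2) ℝ)).comp
      (MvPolynomial.aeval (![MvPolynomial.X 1, MvPolynomial.C k * MvPolynomial.X 0] :
        Fin 2 → MvPolynomial (Fin 2) ℝ)) = AlgHom.id ℝ (MvPolynomial (Fin 2) ℝ) := by
    apply MvPolynomial.algHom_ext
    intro i
    fin_cases i
    · simp
    · simp only [AlgHom.comp_apply, MvPolynomial.aeval_X, AlgHom.id_apply]
      show MvPolynomial.aeval _ (MvPolynomial.C k * MvPolynomial.X 0) = MvPolynomial.X 1
      rw [map_mul, MvPolynomial.aeval_C, MvPolynomial.aeval_X]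
      show MvPolynomial.C k * (MvPolynomial.C k⁻¹ * MvPolynomial.X 1) = MvPolynomial.X 1
      rw [← mul_assoc, ← map_mul, mul_inv_cancel₀ hk, map_one, one_mul]
  have h2 := congrArg (fun φ : MvPolynomial (Fin 2) ℝ →ₐ[ℝ] MvPolynomial (Fin 2) ℝ => φ Q) h1
  simp only [AlgHom.comp_apply, AlgHom.id_apply] at h2
  rw [h0, map_zero] at h2
  exact h2.symm

private theorem lc1_ev (k E y : ℝ) (Q : MvPolynomial (Fin 2) ℝ) :
    MvPolynomial.aeval ![E, y] (MvPolynomial.aeval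
      (![MvPolynomial.X 1, MvPolynomial.C k * MvPolynomial.X 0] :
      Fin 2 → MvPolynomial (Fin 2) ℝ) Q) = MvPolynomial.aeval ![y, k * E] Q := by
  have h1 : (MvPolynomial.aeval ![E, y]).comp
      (MvPolynomial.aeval (![MvPolynomial.X 1, MvPolynomial.C k * MvPolynomial.X 0] :
        Fin 2 → MvPolynomial (Fin 2) ℝ)) = (MvPolynomial.aeval ![y, k * E] :
          MvPolynomial (Fin 2) ℝ →ₐ[ℝ] ℝ) := by
    apply MvPolynomial.algHom_ext
    intro i
    fin_cases i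
    · simp
    · simp
  exact congrArg (fun φ : MvPolynomial (Fin 2) ℝ →ₐ[ℝ] ℝ => φ Q) h1

theorem Q_c1 : LC1 := by
  intro h β a c hβ hQ
  obtain ⟨Q, hQ0, hQe⟩ := hQ
  have hh : Tendsto h atTop atTop := h.tendsto_atTop
  have hb : Tendsto β atTop atTop := β.tendsto_atTop
  have hbi : Tendsto (OrderIso.symm β) atTop atTop := (OrderIso.symm β).tendsto_atTop
  have ha : 0 < a := by
    by_contra hneg
    have hneg' : a ≤ 0 := not_lt.1 hneg
    have h1 : ∀ᶠ x in atTop, (1 : ℝ) ≤ h x := hh.eventually_ge_atTop 1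
    have h2 : ∀ᶠ x in atTop, c + 1 ≤ β x := hb.eventually_ge_atTop (c + 1)
    obtain ⟨x, hx1, hx2, hx3⟩ := (h1.and (h2.and hβ)).exists
    have h4 : 0 ≤ Real.log (h x) := Real.log_nonneg hx1
    nlinarith [mul_nonneg (neg_nonneg.2 hneg') h4]
  refine ⟨ha, MvPolynomial.aeval (![MvPolynomial.X 1,
    MvPolynomial.C (Real.exp (-(c / a))) * MvPolynomial.X 0] :
      Fin 2 → MvPolynomial (Fin 2) ℝ) Q, lc1_ne _ (Real.exp_pos _).ne' Q hQ0, ?_⟩
  have h1 : ∀ᶠ x in atTop, (0 : ℝ) < h x := hh.eventually_gt_atTop 0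
  filter_upwards [hbi.eventually (h1.and (hβ.and hQe))] with u hu
  obtain ⟨hu1, hu2, hu3⟩ := hu
  rw [lc1_ev]
  rw [OrderIso.apply_symm_apply] at hu2
  have h2 : Real.exp (-(c / a)) * Real.exp (a⁻¹ * u) = h (OrderIso.symm β u) := by
    rw [← Real.exp_add, ← Real.exp_log hu1]
    congr 1
    have h3 : Real.log (h (OrderIso.symm β u)) = (u - c) / a := by
      rw [eq_div_iff ha.ne']
      linarith
    rw [h3]
    field_simp
    ring
  rw [h2]
  exact hu3

end MP52exp
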