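import Pool.Agent.Lib.MP_52aaf2_al.LX.Stm

/-!
# MP_52aaf2_al, project LX: the new point is of type `β` (LCasP)
-/

open Polynomial IntermediateField

namespace MP52exp

theorem Q_casP (hK : LKey) (hC : LCh) (hN : LNb) (hG : LGn) : LCasP := by
  intro K M _ _ _ _ S b Z P hgen r y t n hch hq hr htr m hm0 hmr hrel
  obtain ⟨-, -, -, -, hw0, -⟩ := hG K M S b Z P hgen
  have hinj : ∀ z : K →ₐ[ℝ] M, z (DD S b Z) ≠ 0 := fun z h =>
    hw0 ((map_eq_zero_iff z (RingHom.injective z.toRingHom)).1 h)
  have hchar : CharZero M := charZero_of_injective_algebraMap (algebraMap ℝ M).injective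
  have hM0 : (m 0 : M) ≠ 0 := Int.cast_ne_zero.2 hm0
  -- facts on one point
  have hZ : ∀ (z : K →ₐ[ℝ] M) (δ : Derivation ℝ M M), δ (z Z) = 0 → tau S b z δ = 0 := by
    intro z δ h
    have h1 := ((hC K M S b z δ).2 Z P hgen).1
    rw [h] at h1
    rcases mul_eq_zero.1 h1.symm with h2 | h2
    · exact absurd h2 (hinj z)
    · exact h2
  have hZ1 : ∀ (z : K →ₐ[ℝ] M) (δ : Derivation ℝ M M), δ (z Z) = 1 →
      tau S b z δ = (z (DD S b Z))⁻¹ := by
    intro z δ h
    have h1 := ((hC K M S b z δ).2 Z P hgen).1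
    rw [h] at h1
    exact eq_inv_of_mul_eq_one_right h1.symm
  have hin : ∀ x : K, x = inL Z P (t r) → x = Z := by
    intro x hx
    rw [hx, htr]
    rfl
  have hinr : inL Z P (t r) = Z := hin _ rfl
  -- (1) the first point is of type `β⁻¹`
  have ht0 : t 0 = false := by
    by_contra hcon
    have ht : t 0 = true := by
      cases h : t 0
      · exact absurd h hcon
      · rfl
    obtain ⟨δ, -, -, h3, h4, -, h6⟩ := hK K M S b Z P hgen r y t n hch hq hr m hrel 0 (by omega)
    have e1 : tau S b (y r) δ = 0 := by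
      have := h4 (by omega)
      rw [hinr] at this
      exact hZ _ _ this
    have e2 := h6 b
    rw [if_neg (by omega), if_pos (by omega), e1, mul_zero, add_zero, zero_add] at e2
    have e3 : tau S b (y 0) δ = 0 := by
      rcases mul_eq_zero.1 e2 with h | h
      · exact absurd h hM0
      · exact h
    have e4 := (h3 0 (by omega) rfl).1
    rw [ht] at e4
    have e5 := hZ1 (y 0) δ e4
    rw [e3] at e5
    exact inv_ne_zero (hinj (y 0)) e5.symm
  obtain ⟨δ, -, h2, h3, h4, h5, h6⟩ := hK K M S b Z P hgen r y t n hch hq hr m hrel 1 hr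
  have e0 : tau S b (y 0) δ = (y 0 (DD S b Z))⁻¹ := by
    have e := (h2 0 (by omega) rfl).2
    rw [ht0] at e
    exact hZ1 (y 0) δ e
  have key := h6 b
  rw [if_pos le_rfl] at key
  simp only [Nat.sub_self] at key
  rw [e0] at key
  -- the link between the first two points
  have hlink : t 1 = true → y 1 Z = y 0 Z + (n 0 : M) ∧ n 0 ≠ 0 := by
    intro h1
    have hl := hch.link 0 (by omega)
    rw [zero_add, h1, ht0] at hl
    refine ⟨hl, hch.v 0 (by omega) ?_⟩
    rw [zero_add, h1, ht0]
    decide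
  rcases Nat.lt_or_ge 1 r with hr2 | hr2
  · -- at least two old points
    have e1 : tau S b (y r) δ = 0 := by
      have := h4 hr2
      rw [hinr] at this
      exact hZ _ _ this
    rw [if_pos hr2, e1, mul_zero, add_zero] at key
    cases h1 : t 1
    · have e := (h3 1 hr2 rfl).2
      rw [h1] at e
      rw [hZ (y 1) δ e, mul_zero, add_zero] at key
      rcases mul_eq_zero.1 key with h | h
      · exact hM0 h
      · exact inv_ne_zero (hinj (y 0)) h
    · have e := (h3 1 hr2 rfl).1
      rw [h1] at e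
      rw [hZ1 (y 1) δ e] at key
      obtain ⟨hl, hn⟩ := hlink h1
      exact hN K M S b Z P hgen (y 0) (y 1) (n 0) (m 0) (m 1) hn hm0 hl key
  · -- one old point
    have hr1 : r = 1 := by omega
    subst hr1
    have e := h5 rfl
    rw [hinr] at e
    rw [if_neg (by omega), add_zero, hZ1 (y 1) δ e] at key
    obtain ⟨hl, hn⟩ := hlink htr
    exact hN K M S b Z P hgen (y 0) (y 1) (n 0) (m 0) (m 1) hn hm0 hl key

end MP52exp
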