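import Pool.Agent.Lib.MP_52aaf2_al.LX.Stm

/-!
# The piece LCh: the chain rule at a point
-/

set_option autoImplicit false

namespace MP52exp

theorem Q_ch (hCr : Cr) (hG : LGn) : LCh := by
  intro K M _ _ _ _ S b y δ
  have key : ∀ h : K, δ (y h) =
      y (DD S b h) * tau S b y δ + y (DD S (!b) h) * tau S (!b) y δ := by
    intro h
    have e := hCr K M S M y δ h
    cases b
    · simp only [DD, tau, Bool.not_false, cond_true, cond_false]
      rw [e, add_comm]
    · simp only [DD, tau, Bool.not_true, cond_true, cond_false]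
      exact e
  refine ⟨key, fun Z P hL => ?_⟩
  obtain ⟨-, -, hZ0, -, hw, -⟩ := hG K M S b Z P hL
  have hyw : y (DD S b Z) ≠ 0 := (map_ne_zero y).mpr hw
  have hy2 : y (DD S (!b) P) ≠ 0 := (map_ne_zero y).mpr hL.h2
  have eZ : δ (y Z) = y (DD S b Z) * tau S b y δ := by
    rw [key Z, hZ0, map_zero, zero_mul, add_zero]
  have eP := key P
  refine ⟨eZ, ?_, ?_, ?_⟩
  · intro h
    rw [h] at eP
    unfold muL
    rw [map_div₀]
    field_simp
    linear_combination -eP
  · intro h1 _
    rw [h1] at eZ
    field_simp
    linear_combination -eZ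
  · intro h0 h1
    rw [h0] at eZ
    have t0 : tau S b y δ = 0 := by
      rcases mul_eq_zero.mp eZ.symm with h | h
      · exact absurd h hyw
      · exact h
    refine ⟨t0, ?_⟩
    rw [h1, t0, mul_zero, zero_add] at eP
    field_simp
    linear_combination -eP

end MP52exp
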