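import Pool.Agent.Lib.MP_52aaf2_al.LX.Stm

/-!
# MP_52aaf2_al, project LX: piece com

The two derivations `∂/∂X` and `E ∂/∂E` commute.
-/

namespace MP52exp

theorem Q_com (hDst : Dst) : LCom := by
  intro K M _ _ _ _ S b h
  have key : ∀ a : K, ⁅S.DX, S.DE⁆ a = 0 := by
    intro a
    refine (hDst ℝ K ({S.X, S.E} : Set K) ⁅S.DX, S.DE⁆).2 ?_ a (S.span a)
    intro c hc
    rcases hc with rfl | hc
    · rw [Derivation.commutator_apply, S.DE_X, S.DX_X]; simp
    · rw [Set.mem_singleton_iff] at hc
      subst hc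
      rw [Derivation.commutator_apply, S.DE_E, S.DX_E]; simp
  have hk := key h
  rw [Derivation.commutator_apply, sub_eq_zero] at hk
  cases b
  · exact hk.symm
  · exact hk

end MP52exp
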