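import Pool.Agent.Lib.MP_52aaf2_al.LX.Stm
import Pool.Agent.Lib.MP_52aaf2_al.EX.P_gr

/-!
# MP_52aaf2_al, project LX: the piece `LDer` (dual derivations of a chain)
-/

open Polynomial IntermediateField

namespace MP52exp

section

variable {K M : Type} [Field K] [Field M] [Algebra ℝ K] [Algebra ℝ M] {S : Sys K M}

/-- the elements `v_0 = y_0 (in)`, `v_{i+1} = y_i (out)` -/
def lderV (Z P : K) (y : ℕ → (K →ₐ[ℝ] M)) (t : ℕ → Bool) : ℕ → M
  | 0 => y 0 (inL Z P (t 0))
  | (i + 1) => y i (outL Z P (t i))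

theorem lderV_in {Z P : K} {r : ℕ} {y : ℕ → (K →ₐ[ℝ] M)} {t : ℕ → Bool} {n : ℕ → ℤ}
    (h : LChain S Z P r y t n) {l : ℕ} (hl : l < r) :
    ∃ m : ℤ, y l (inL Z P (t l)) = lderV Z P y t l + (m : M) := by
  cases l with
  | zero => exact ⟨0, by simp [lderV]⟩
  | succ j => exact ⟨n j, h.link j hl⟩

/-- all the `v_i` with `i ≤ r`, `i ≠ k` -/
def lderS (Z P : K) (y : ℕ → (K →ₐ[ℝ] M)) (t : ℕ → Bool) (r k : ℕ) : Set M :=
  lderV Z P y t '' (((Finset.range (r + 1)).erase k : Finset ℕ) : Set ℕ)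

theorem lderS_mem {Z P : K} {y : ℕ → (K →ₐ[ℝ] M)} {t : ℕ → Bool} {r k i : ℕ} (h1 : i ≤ r)
    (h2 : i ≠ k) : lderV Z P y t i ∈ lderS Z P y t r k := by
  refine ⟨i, ?_, rfl⟩
  rw [Finset.mem_coe, Finset.mem_erase, Finset.mem_range]
  exact ⟨h2, by omega⟩

theorem rk_lderS {Z P : K} {y : ℕ → (K →ₐ[ℝ] M)} {t : ℕ → Bool} {r k : ℕ} (h1 : k ≤ r) :
    rk ℝ (lderS Z P y t r k) ≤ r := by
  have h2 : rk ℝ (lderS Z P y t r k) ≤ (lderS Z P y t r k).encard :=
    Matroid.eRk_le_encard _ _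
  refine h2.trans ((Set.encard_image_le _ _).trans ?_)
  rw [Set.encard_coe_eq_coe_finsetCard, Finset.card_erase_of_mem (by
    rw [Finset.mem_range]; omega), Finset.card_range, Nat.add_sub_cancel]

/-- the points are algebraic over the `v_i` -/
theorem lder_mem (jac : Jac) (trn : Trn) {Z P : K} {r : ℕ} {y : ℕ → (K →ₐ[ℝ] M)} {t : ℕ → Bool}
    {n : ℕ → ℤ} (h : LChain S Z P r y t n)
    (hc : PreChain S r y (fun j => inL Z P (t j)) (fun j => outL Z P (t j))) (T : Set M) {l : ℕ}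
    (hl : l < r) (h1 : lderV Z P y t l ∈ acl ℝ T) (h2 : lderV Z P y t (l + 1) ∈ acl ℝ T) (a : K) :
    y l a ∈ acl ℝ T := by
  have h3 := gr_gen_sub jac trn S (y l) (hc.ab1 l hl) (hc.ab2 l hl) a
  refine acl_le_of_subset ?_ h3
  rintro x (rfl | hx)
  · exact h2
  · rw [Set.mem_singleton_iff.1 hx]
    obtain ⟨m, hm⟩ := lderV_in h hl
    show y l (inL Z P (t l)) ∈ acl ℝ T
    rw [hm]
    exact add_mem h1 (intCast_mem _ _)

end

theorem Q_der (hG : GR) (hP : LPre) (hJ : Jac) (hT : Trn) (hD : Der1) : LDer := by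
  intro K M _ _ _ _ S Z P hZ hPZ r y t n hL hQ hr k hk
  have hc := hP K M S Z P hZ hPZ r y t n hL
  have hrk := hG K M S r y _ _ hc hQ 0 r (by omega) le_rfl
  -- `v_k` is not algebraic over the other ones
  have hk' : lderV Z P y t k ∉ acl ℝ (lderS Z P y t r k) := by
    intro hmem
    have hall : ∀ i ≤ r, lderV Z P y t i ∈ acl ℝ (lderS Z P y t r k) := by
      intro i hi
      by_cases h : i = k
      · rw [h]; exact hmem
      · exact subset_acl _ (lderS_mem hi h)
    have hsub : gens S y 0 r ⊆ acl ℝ (lderS Z P y t r k) := by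
      intro x hx
      simp only [gens, Set.mem_iUnion, Set.mem_Ico, exists_prop] at hx
      obtain ⟨l, ⟨_, hl⟩, hx⟩ := hx
      rcases hx with rfl | hx
      · exact lder_mem hJ hT hL hc _ hl (hall l (by omega)) (hall (l + 1) (by omega)) _
      · rw [Set.mem_singleton_iff.1 hx]
        exact lder_mem hJ hT hL hc _ hl (hall l (by omega)) (hall (l + 1) (by omega)) _
    have h1 := (rk_mono_acl hsub).trans (rk_lderS (Z := Z) (P := P) (y := y) (t := t) hk)
    rw [hrk, Nat.sub_zero] at h1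
    have h2 : ((r + 1 : ℕ) : ℕ∞) ≤ (r : ℕ∞) := by
      push_cast
      exact h1
    rw [Nat.cast_le] at h2
    omega
  obtain ⟨δ, hδ, hδk⟩ := hD ℝ M (lderS Z P y t r k) (lderV Z P y t k) hk'
  refine ⟨δ, ?_, ?_, ?_⟩
  · intro l hl h1 h2 a
    apply hδ
    exact lder_mem hJ hT hL hc _ hl (subset_acl _ (lderS_mem (by omega) h1))
      (subset_acl _ (lderS_mem (by omega) h2)) a
  · intro l hl h1
    constructor
    · obtain ⟨m, hm⟩ := lderV_in hL hl
      rw [hm, map_add, Derivation.map_intCast, add_zero]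
      exact hδ _ (subset_acl _ (lderS_mem (by omega) (by omega)))
    · have h2 : y l (outL Z P (t l)) = lderV Z P y t k := by
        rw [← h1]
        rfl
      rw [h2]
      exact hδk
  · intro l hl h1
    constructor
    · obtain ⟨m, hm⟩ := lderV_in hL hl
      rw [hm, map_add, Derivation.map_intCast, add_zero, h1]
      exact hδk
    · have h2 : y l (outL Z P (t l)) = lderV Z P y t (l + 1) := rfl
      rw [h2]
      exact hδ _ (subset_acl _ (lderS_mem (by omega) (by omega)))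

end MP52exp
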