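import Pool.Agent.Lib.MP_52aaf2_al.LX.Stm

/-!
# MP_52aaf2_al, project LX: the degenerate case
-/

namespace MP52exp

section aux

variable {K M : Type} [Field K] [Field M] [Algebra ℝ K] [Algebra ℝ M]

theorem dgi_swap {F : Type} [Field F] [Algebra ℝ F] {a b : F} (h : a ∈ acl ℝ ({b} : Set F))
    (h' : a ∉ acl ℝ (∅ : Set F)) : acl ℝ ({a} : Set F) = acl ℝ ({b} : Set F) := by
  apply acl_eq_of_subset
  · rintro x rfl
    exact h
  · rintro x rfl
    have h1 : a ∈ acl ℝ (insert x (∅ : Set F)) := by simpa using h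
    have h2 := acl_exchange h1 h'
    simpa using h2

theorem dgi_map (hT : Trn) (y : K →ₐ[ℝ] M) {h h' : K}
    (e : acl ℝ ({h} : Set K) = acl ℝ ({h'} : Set K)) :
    acl ℝ ({y h} : Set M) = acl ℝ ({y h'} : Set M) := by
  apply acl_eq_of_subset
  · rintro x rfl
    have h1 : h ∈ acl ℝ ({h'} : Set K) := by
      rw [← e]
      exact subset_acl _ rfl
    rw [hT ℝ K M y {h'} h, Set.image_singleton] at h1
    exact h1
  · rintro x rfl
    have h1 : h' ∈ acl ℝ ({h} : Set K) := by
      rw [e]
      exact subset_acl _ rfl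
    rw [hT ℝ K M y {h} h', Set.image_singleton] at h1
    exact h1

theorem dgi_facts (hF : LFac) (S : Sys K M) (b : Bool) {Z : K}
    (hZ : Z ∈ acl ℝ ({VV S b} : Set K)) (hw : DD S b Z ∉ acl ℝ (∅ : Set K)) :
    Z ∉ acl ℝ (∅ : Set K) ∧ acl ℝ ({Z} : Set K) = acl ℝ ({VV S b} : Set K) := by
  have h0 : Z ∉ acl ℝ (∅ : Set K) := by
    intro h
    apply hw
    rw [(hF K M S b).2.2.2.2.2.1 Z h]
    exact zero_mem _
  exact ⟨h0, dgi_swap hZ h0⟩

end aux

theorem Q_dgi (hF : LFac) (hN : LDgN) (hE : ExpC) (hT : Trn) : LDgI := by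
  intro K M _ _ _ _ S b Z P hD
  obtain ⟨hZ0, hZe⟩ := dgi_facts hF S b hD.hZ hD.hw
  obtain ⟨hP0, hPe⟩ := dgi_facts hF S (!b) hD.hP hD.hw'
  refine ⟨⟨hZ0, ?_⟩, ?_⟩
  · intro h
    apply (hF K M S b).2.1
    rw [hZe] at h
    have h1 : acl ℝ ({P} : Set K) ≤ acl ℝ ({VV S b} : Set K) := by
      apply acl_le_of_subset
      rintro x rfl
      exact h
    rw [hPe] at h1
    exact h1 (subset_acl _ rfl)
  intro r y t n hC
  have hin : ∀ j, acl ℝ ({inL Z P (t j)} : Set K) =
      acl ℝ ({bif (t j == b) then S.X else S.E} : Set K) := by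
    intro j
    cases hb : b <;> cases htj : t j <;> simp only [hb] at hZe hPe <;>
      simp [inL, VV] at hZe hPe ⊢ <;> first | exact hZe | exact hPe
  have hout : ∀ j, acl ℝ ({outL Z P (t j)} : Set K) =
      acl ℝ ({bif (t j == b) then S.E else S.X} : Set K) := by
    intro j
    cases hb : b <;> cases htj : t j <;> simp only [hb] at hZe hPe <;>
      simp [outL, VV] at hZe hPe ⊢ <;> first | exact hZe | exact hPe
  refine hE K M S r y (fun j => (t j == b)) hC.pt ?_ ?_
  · intro j hj
    have h1 := hC.link j hj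
    have h2 : acl ℝ ({y (j + 1) (inL Z P (t (j + 1)))} : Set M) =
        acl ℝ ({y j (outL Z P (t j))} : Set M) := by
      apply acl_eq_of_subset
      · rintro x rfl
        rw [h1]
        exact add_mem (subset_acl _ rfl) (intCast_mem _ _)
      · rintro x rfl
        have h3 : y j (outL Z P (t j)) = y (j + 1) (inL Z P (t (j + 1))) - (n j : M) := by
          rw [h1]; ring
        rw [h3]
        exact sub_mem (subset_acl _ rfl) (intCast_mem _ _)
    rw [dgi_map hT (y (j + 1)) (hin (j + 1)), dgi_map hT (y j) (hout j)] at h2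
    exact h2
  · intro j hj hne m₁ m₂ c hc
    have htn : t j ≠ t (j + 1) := by
      intro h
      apply hne
      simp only [h]
    have hn := hC.v j hj htn
    have hl := hC.link j hj
    cases h1 : t j with
    | true =>
      have h2 : t (j + 1) = false := by
        cases h3 : t (j + 1) with
        | true => rw [h1, h3] at htn; exact absurd rfl htn
        | false => rfl
      rw [h1, h2] at hl
      exact hN K M S (!b) P hD.hP hD.hw' (y j) (hC.pt j (by omega)) (y (j + 1))
        (hC.pt (j + 1) hj) (n j) hn hl m₁ m₂ c hc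
    | false =>
      have h2 : t (j + 1) = true := by
        cases h3 : t (j + 1) with
        | false => rw [h1, h3] at htn; exact absurd rfl htn
        | true => rfl
      rw [h1, h2] at hl
      exact hN K M S b Z hD.hZ hD.hw (y j) (hC.pt j (by omega)) (y (j + 1))
        (hC.pt (j + 1) hj) (n j) hn hl m₁ m₂ c hc

end MP52exp
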