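import Pool.Agent.Lib.MP_52aaf2_al.LX.Stm

/-! # MP_52aaf2_al, project LX: piece dgn -/

open Polynomial IntermediateField

namespace MP52exp

theorem Q_dgn (hF : LFac) (hR : LRel) (hCr : Cr) (hT : Trn) (hD : Der1) (hL : LemD) : LDgN := by
  intro K M _ _ _ _ S b A hA hA' y hy z hz n hn hlink m₁ m₂ c hc
  have cM := charM M
  have cK := charM K
  obtain ⟨-, -, f3, f4, -, f6, -⟩ := hF K M S b
  have hDc : (m₁ : M) * S.D (y S.X) + (m₂ : M) * S.D (z S.X) = 0 := by
    have h := congrArg S.D hc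
    rw [map_add, D_int, D_int, Derivation.map_algebraMap] at h
    exact h
  by_cases h1 : m₁ = 0
  · refine ⟨h1, ?_⟩
    by_contra h2
    rw [h1, Int.cast_zero, zero_mul, zero_add] at hDc
    rcases mul_eq_zero.1 hDc with h | h
    · exact h2 (by exact_mod_cast h)
    · exact S.pt_ne z hz h
  by_cases h2 : m₂ = 0
  · exfalso
    rw [h2, Int.cast_zero, zero_mul, add_zero] at hDc
    rcases mul_eq_zero.1 hDc with h | h
    · exact h1 (by exact_mod_cast h)
    · exact S.pt_ne y hy h
  exfalso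
  have hA0 : A ∉ acl ℝ (∅ : Set K) := by
    intro h
    apply hA'
    rw [f6 A h]
    exact zero_mem _
  have hyA0 : y A ∉ acl ℝ (∅ : Set M) := by
    intro h
    apply hA0
    rw [hT ℝ K M y ∅ A, Set.image_empty]
    exact h
  obtain ⟨δ, hδ0, hδ1⟩ := hD ℝ M ∅ (y A) hyA0
  have hδz : δ (z A) = 1 := by
    rw [hlink, map_add, hδ1, hδ0 _ (int_mem_acl n _), add_zero]
  have hDD0 : DD S (!b) A = 0 := (f3 A).2 hA
  have hchain : ∀ u : K →ₐ[ℝ] M, δ (u A) = u (DD S b A) * tau S b u δ := by
    intro u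
    have h := hCr K M S M u δ A
    cases b with
    | true =>
      have h0 : S.DE A = 0 := hDD0
      rw [h, h0, map_zero, zero_mul, add_zero]
      rfl
    | false =>
      have h0 : S.DX A = 0 := hDD0
      rw [h, h0, map_zero, zero_mul, zero_add]
      rfl
  have hy1 : y (DD S b A) * tau S b y δ = 1 := by rw [← hchain y, hδ1]
  have hz1 : z (DD S b A) * tau S b z δ = 1 := by rw [← hchain z, hδz]
  have hrel : (m₁ : M) * tau S b y δ + (m₂ : M) * tau S b z δ = 0 := by
    have h := hR K M S 2 (fun j => if j = 0 then y else z) (by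
      intro j _
      split_ifs
      · exact hy
      · exact hz) (fun j => if j = 0 then m₁ else m₂)
      ⟨c, by
        rw [Finset.sum_range_succ, Finset.sum_range_succ, Finset.sum_range_zero, zero_add]
        exact hc⟩ b δ
    rw [Finset.sum_range_succ, Finset.sum_range_succ, Finset.sum_range_zero, zero_add] at h
    exact h
  have hm1 : (m₁ : M) ≠ 0 := by exact_mod_cast h1
  have hm1r : (m₁ : ℝ) ≠ 0 := by exact_mod_cast h1
  have hm2r : (m₂ : ℝ) ≠ 0 := by exact_mod_cast h2
  have hzy : z (DD S b A) = algebraMap ℝ M (-((m₂ : ℝ) / (m₁ : ℝ))) * y (DD S b A) := by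
    have e1 : (m₁ : M) * z (DD S b A) + (m₂ : M) * y (DD S b A) = 0 := by
      have e2 : ((m₁ : M) * tau S b y δ + (m₂ : M) * tau S b z δ) *
          (y (DD S b A) * z (DD S b A)) = 0 := by rw [hrel, zero_mul]
      have e3 : ((m₁ : M) * tau S b y δ + (m₂ : M) * tau S b z δ) *
          (y (DD S b A) * z (DD S b A)) =
          (m₁ : M) * z (DD S b A) * (y (DD S b A) * tau S b y δ) +
          (m₂ : M) * y (DD S b A) * (z (DD S b A) * tau S b z δ) := by ring
      rw [e3, hy1, hz1, mul_one, mul_one] at e2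
      exact e2
    rw [map_neg, map_div₀, ← int_eq, ← int_eq]
    field_simp
    linear_combination e1
  have hVA : VV S b ∈ acl ℝ ({A} : Set K) := by
    have h := acl_exchange (k := ℝ) (S := (∅ : Set K)) (a := A) (b := VV S b)
      (by simpa using hA) hA0
    simpa using h
  have hA1 : DD S b A ∈ acl ℝ ({A} : Set K) :=
    acl_le_of_subset (by
      intro x hx
      rw [Set.mem_singleton_iff.1 hx]
      exact hVA) (f4 A hA)
  have hnr : (n : ℝ) ≠ 0 := by exact_mod_cast hn
  have hfin := hL ℝ K M y z A (DD S b A) (n : ℝ) (-((m₂ : ℝ) / (m₁ : ℝ))) hnr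
    (neg_ne_zero.2 (div_ne_zero hm2r hm1r)) (fun h => hA0 (mem_acl_empty.2 h))
    (mem_acl_singleton.1 hA1) (by rw [← int_eq]; exact hlink) hzy
  exact hA' (mem_acl_empty.2 hfin)

end MP52exp
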