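import Pool.Agent.Lib.MP_52aaf2_al.LX.Stm

/-!
# Piece LFac: facts on `DD` and `VV`
-/

open Polynomial IntermediateField

namespace MP52exp

theorem Q_fac (hJ : Jac) (hDst : Dst) (hL : LemL) : LFac := by
  intro K M _ _ _ _ S b
  have : CharZero ℝ := inferInstance
  obtain ⟨-, hJ1, ⟨hE, hXE, hEX⟩, -, -⟩ := hJ K M S
  have hX : S.X ∉ acl ℝ (∅ : Set K) := fun h => hXE (acl_mono (Set.empty_subset _) h)
  have kill0 : ∀ (δ : Derivation ℝ K K), ∀ a ∈ acl ℝ (∅ : Set K), δ a = 0 :=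
    fun δ => (hDst ℝ K ∅ δ).2 (by simp)
  cases b with
  | true =>
    refine ⟨hX, hEX, ?_, ?_, ?_, kill0 S.DX, ?_⟩
    · intro h
      show S.DE h = 0 ↔ h ∈ acl ℝ ({S.X} : Set K)
      rw [hJ1 S.X h hX, S.DE_X, S.DX_X, mul_zero, mul_one, eq_comm]
    · refine (hDst ℝ K {S.X} S.DX).1 ?_
      intro a ha
      rw [Set.mem_singleton_iff] at ha
      rw [ha, S.DX_X]
      exact one_mem _
    · intro P h hP
      exact hJ1 P h hP
    · intro h
      cases h
  | false =>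
    refine ⟨hE, hXE, ?_, ?_, ?_, kill0 S.DE, ?_⟩
    · intro h
      show S.DX h = 0 ↔ h ∈ acl ℝ ({S.E} : Set K)
      rw [hJ1 S.E h hE, S.DE_E, S.DX_E, mul_zero, mul_eq_zero, or_iff_left S.E_ne]
    · refine (hDst ℝ K {S.E} S.DE).1 ?_
      intro a ha
      rw [Set.mem_singleton_iff] at ha
      rw [ha, S.DE_E]
      exact subset_acl _ rfl
    · intro P h hP
      exact (hJ1 P h hP).trans eq_comm
    · intro _ h hh
      exact hL K M S h (kill0 S.DE _ hh)

end MP52exp
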