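import Pool.Agent.Lib.MP_52aaf2_al.LX.Stm

/-!
# MP_52aaf2_al, project LX: piece gn (consequences of `LGen`)
-/

set_option autoImplicit false

open Polynomial IntermediateField

namespace MP52exp

theorem Q_gn_mu {K M : Type} [Field K] [Field M] [Algebra ℝ K] [Algebra ℝ M] (S : Sys K M)
    (hM : MuN) (b : Bool) (P : K) (h1 : DD S b P ≠ 0) (h2 : DD S (!b) P ≠ 0) :
    muL S b P ∉ acl ℝ ({P} : Set K) := by
  cases b with
  | true => exact (hM K M S P h1 h2).1
  | false =>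
    intro h
    apply (hM K M S P h2 h1).1
    have h3 : mu S P = (muL S false P)⁻¹ := by
      show S.DX P / S.DE P = (S.DE P / S.DX P)⁻¹
      rw [inv_div]
    rw [h3]
    exact inv_mem h

theorem Q_gn (hF : LFac) (hM : MuN) : LGn := by
  intro K M _ _ _ _ S b Z P hG
  obtain ⟨-, -, F3, F4, -, F6, -⟩ := hF K M S b
  have hw0 : DD S b Z ≠ 0 := by
    intro h0
    apply hG.hw
    rw [h0]
    exact zero_mem _
  have hZ : Z ∉ acl ℝ (∅ : Set K) := fun h => hw0 (F6 Z h)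
  have hP : P ∉ acl ℝ (∅ : Set K) := fun h => hG.h1 (F6 P h)
  have hins : ∀ a : K, (insert a ∅ : Set K) = {a} := fun a => by simp
  have hex : ∀ a c : K, a ∉ acl ℝ (∅ : Set K) → a ∈ acl ℝ ({c} : Set K) →
      c ∈ acl ℝ ({a} : Set K) := by
    intro a c ha hac
    rw [← hins c] at hac
    have h := acl_exchange hac ha
    rwa [hins a] at h
  have hV : VV S b ∈ acl ℝ ({Z} : Set K) := hex Z _ hZ hG.hZ
  have heq : acl ℝ ({Z} : Set K) = acl ℝ ({VV S b} : Set K) :=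
    acl_eq_of_subset (Set.singleton_subset_iff.2 hG.hZ) (Set.singleton_subset_iff.2 hV)
  have hPZ : P ∉ acl ℝ ({Z} : Set K) := by
    intro h
    rw [heq] at h
    exact hG.h2 ((F3 P).2 h)
  refine ⟨⟨hZ, hP, hPZ, fun h => hPZ (hex Z P hZ h)⟩, heq, (F3 Z).2 hG.hZ, ?_, hw0,
    Q_gn_mu S hM b P hG.h1 hG.h2⟩
  rw [heq]
  exact F4 Z hG.hZ

end MP52exp
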