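import Pool.Agent.Lib.MP_52aaf2_al.LX.Stm
import Pool.Agent.Lib.MP_52aaf2_al.EX.P_an2

set_option autoImplicit false

/-!
# MP_52aaf2_al, project LX: relations over `ℝ(x, e^x)` and elements of `KF 1`
-/

open Filter Topology

namespace MP52exp

/-- **(LK3)** -/
theorem Q_k3 (hD : Dic) : LK3 := by
  refine ⟨?_, ?_⟩
  · rintro f hf ⟨Q, hQ, hz⟩
    exact an2_dic hD 1 one_pos f hf Q hQ hz
  · rintro f ⟨Q, hQ, hz⟩
    have hinj : Function.Injective (![0, 2] : Fin 2 → Fin 3) := by decide
    refine ⟨MvPolynomial.rename (![0, 2] : Fin 2 → Fin 3) Q, ?_, ?_⟩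
    · intro h0
      apply hQ
      apply MvPolynomial.rename_injective _ hinj
      rw [h0, map_zero]
    · filter_upwards [hz] with x hx
      rw [MvPolynomial.aeval_rename, ← hx]
      congr 2
      funext i
      fin_cases i <;> rfl

end MP52exp
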