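import Pool.Agent.Lib.MP_52aaf2_al.LX.Stm

/-!
# MP_52aaf2_al, project LX, piece lg: an order isomorphism equal to the logarithm near infinity
-/

open Polynomial IntermediateField Filter Topology

namespace MP52exp

/-- `log x` for `x ≥ 1`, `x - 1` for `x ≤ 1` -/
private noncomputable def lgF (x : ℝ) : ℝ := if 1 ≤ x then Real.log x else x - 1

/-- `e ^ t` for `t ≥ 0`, `t + 1` for `t ≤ 0` -/
private noncomputable def lgG (t : ℝ) : ℝ := if 0 ≤ t then Real.exp t else t + 1

private theorem lgF_pos {x : ℝ} (h : 1 ≤ x) : lgF x = Real.log x := if_pos h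

private theorem lgF_neg {x : ℝ} (h : ¬ 1 ≤ x) : lgF x = x - 1 := if_neg h

private theorem lgG_pos {x : ℝ} (h : 0 ≤ x) : lgG x = Real.exp x := if_pos h

private theorem lgG_neg {x : ℝ} (h : ¬ 0 ≤ x) : lgG x = x + 1 := if_neg h

private theorem lgFG (t : ℝ) : lgF (lgG t) = t := by
  by_cases h : 0 ≤ t
  · rw [lgG_pos h, lgF_pos (Real.one_le_exp h), Real.log_exp]
  · rw [lgG_neg h, lgF_neg (by linarith [not_le.1 h])]
    ring

private theorem lgGF (x : ℝ) : lgG (lgF x) = x := by
  by_cases h : 1 ≤ x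
  · rw [lgF_pos h, lgG_pos (Real.log_nonneg h), Real.exp_log (by linarith)]
  · rw [lgF_neg h, lgG_neg (by linarith [not_le.1 h])]
    ring

private theorem lgF_mono {x y : ℝ} (hxy : x ≤ y) : lgF x ≤ lgF y := by
  by_cases hx : 1 ≤ x
  · rw [lgF_pos hx, lgF_pos (hx.trans hxy)]
    exact Real.log_le_log (by linarith) hxy
  · rw [lgF_neg hx]
    by_cases hy : 1 ≤ y
    · rw [lgF_pos hy]
      linarith [Real.log_nonneg hy, not_le.1 hx]
    · rw [lgF_neg hy]
      linarith

private theorem lgG_mono {x y : ℝ} (hxy : x ≤ y) : lgG x ≤ lgG y := by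
  by_cases hx : 0 ≤ x
  · rw [lgG_pos hx, lgG_pos (hx.trans hxy)]
    exact Real.exp_le_exp.2 hxy
  · rw [lgG_neg hx]
    by_cases hy : 0 ≤ y
    · rw [lgG_pos hy]
      linarith [Real.one_le_exp hy, not_le.1 hx]
    · rw [lgG_neg hy]
      linarith

private noncomputable def lgE : ℝ ≃o ℝ where
  toFun := lgF
  invFun := lgG
  left_inv := lgGF
  right_inv := lgFG
  map_rel_iff' := by
    intro a b
    refine ⟨fun h => ?_, lgF_mono⟩
    have := lgG_mono h
    have e1 : lgG (lgF a) ≤ lgG (lgF b) := this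
    rwa [lgGF, lgGF] at e1

private theorem lgE_eq (x : ℝ) : lgE x = lgF x := rfl

private theorem lgE_symm (x : ℝ) : lgE.symm x = lgG x := rfl

theorem Q_lg : LLg := by
  refine ⟨lgE, ⟨?_, ?_⟩, ?_, ?_⟩
  · show ∀ᶠ x in atTop, AnalyticAt ℝ lgE x
    filter_upwards [eventually_gt_atTop (1 : ℝ)] with x hx
    refine (analyticAt_log (x := x) (by linarith)).congr ?_
    filter_upwards [eventually_gt_nhds hx] with y hy
    rw [lgE_eq, lgF_pos hy.le]
  · show ∀ᶠ x in atTop, AnalyticAt ℝ lgE.symm x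
    filter_upwards [eventually_gt_atTop (0 : ℝ)] with x hx
    refine (analyticAt_rexp (x := x)).congr ?_
    filter_upwards [eventually_gt_nhds hx] with y hy
    rw [lgE_symm, lgG_pos hy.le]
  · filter_upwards [eventually_ge_atTop (1 : ℝ)] with x hx
    rw [lgE_eq, lgF_pos hx]
  · filter_upwards [eventually_ge_atTop (0 : ℝ)] with x hx
    rw [lgE_symm, lgG_pos hx, one_mul]

end MP52exp
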