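import Pool.Agent.Lib.MP_52aaf2_al.LX.Stm

/-!
# MP_52aaf2_al, project LX: the piece LM2
-/

open Polynomial IntermediateField

namespace MP52exp

private theorem m2_trn1 (hT : Trn) {K M : Type} [Field K] [Field M] [Algebra ℝ K] [Algebra ℝ M]
    (y : K →ₐ[ℝ] M) (a h : K) : h ∈ acl ℝ ({a} : Set K) ↔ y h ∈ acl ℝ ({y a} : Set M) := by
  have h1 := hT ℝ K M y ({a} : Set K) h
  rwa [Set.image_singleton] at h1

private theorem m2_add_int {M : Type} [Field M] [Algebra ℝ M] (u : M) (n : ℤ) :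
    acl ℝ ({u + (n : M)} : Set M) = acl ℝ ({u} : Set M) := by
  apply acl_eq_of_subset
  · rintro x rfl
    exact add_mem (subset_acl ({u} : Set M) rfl) (int_mem_acl n _)
  · rintro x rfl
    have h1 := sub_mem (subset_acl (k := ℝ) ({x + (n : M)} : Set M) rfl)
      (int_mem_acl (M := M) n ({x + (n : M)} : Set M))
    rwa [add_sub_cancel_right] at h1

theorem Q_m2 (hMu : LMu) (hK : LKey) (hC : LCh) (hR : R1) (hP : LPre) (hT : Trn) (hF : LFac)
    (hG : LGn) (hCom : LCom) : LM2 := by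
  intro K M _ _ _ _ S b Z P hLG r y t n hch hq h2r htr ht1 m hm0 hmr hc
  have : CharZero M := charM M
  obtain ⟨ht0, hmu⟩ := hMu K M S b Z P hLG r y t n hch hq (by omega) htr m hm0 hmr hc
  obtain ⟨⟨hZ0, hP0, hPZ, hZP⟩, haZ, hD2Z, hwZ, hw0, hmuP⟩ := hG K M S b Z P hLG
  obtain ⟨_, _, hF3, _, hF5, _, _⟩ := hF K M S b
  obtain ⟨δ, _, k2, k3, k4, _, k6⟩ :=
    hK K M S b Z P hLG r y t n hch hq (by omega) m hc 1 (by omega)
  have k2' := k2 0 (by omega) rfl
  have k3' := k3 1 (by omega) rfl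
  have k4' := k4 (by omega)
  have hlink := hch.link 0 (by omega)
  rw [ht0] at k2'
  rw [ht1] at k3'
  rw [htr] at k4'
  rw [zero_add, ht0, ht1] at hlink
  simp only [inL, outL, cond_true, cond_false] at k2' k3' k4' hlink
  obtain ⟨_, c0⟩ := hC K M S b (y 0) δ
  obtain ⟨_, c1⟩ := hC K M S b (y 1) δ
  obtain ⟨_, cr⟩ := hC K M S b (y r) δ
  obtain ⟨_, _, _, c0d⟩ := c0 Z P hLG
  obtain ⟨_, c1b, c1c, _⟩ := c1 Z P hLG
  obtain ⟨_, crb, _, _⟩ := cr Z P hLG
  obtain ⟨e01, e02⟩ := c0d k2'.1 k2'.2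
  have e11 := c1c k3'.1 k3'.2
  have e12 := c1b k3'.2
  have er2 := crb k4'
  rw [hmu] at er2
  have q1 := k6 b
  have q2 := k6 (!b)
  rw [if_pos (le_refl 1), if_pos (show 1 < r by omega)] at q1 q2
  simp only [Nat.sub_self] at q1 q2
  rw [e01, e11, mul_zero, zero_add] at q1
  rw [e02, e12, e11, er2] at q2
  -- nonvanishing
  have hP2 : DD S (!b) P ≠ 0 := hLG.h2
  have hyP2 : y 0 (DD S (!b) P) ≠ 0 := (map_ne_zero (y 0)).2 hP2
  have hyw : y 1 (DD S b Z) ≠ 0 := (map_ne_zero (y 1)).2 hw0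
  have star : (m 0 : M) * (y 0 (DD S (!b) P))⁻¹ =
      (m 1 : M) * (y 1 (muL S b P) - y 0 (muL S b P)) * (y 1 (DD S b Z))⁻¹ := by
    linear_combination q2 + y 0 (muL S b P) * q1
  have hm0' : (m 0 : M) ≠ 0 := by exact_mod_cast hm0
  have hm1 : (m 1 : M) ≠ 0 := by
    intro h0
    rw [h0, zero_mul, zero_mul] at star
    exact mul_ne_zero hm0' (inv_ne_zero hyP2) star
  have hdiff : y 1 (muL S b P) - y 0 (muL S b P) =
      ((m 0 : M) / (m 1 : M)) * (y 1 (DD S b Z) * (y 0 (DD S (!b) P))⁻¹) := by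
    field_simp
    field_simp at star
    linear_combination -star
  -- everything algebraic
  have hacl : acl ℝ ({y 1 Z} : Set M) = acl ℝ ({y 0 P} : Set M) := by
    rw [hlink, m2_add_int]
  have hwy : y 1 (DD S b Z) ∈ acl ℝ ({y 0 P} : Set M) := by
    rw [← hacl]
    exact (m2_trn1 hT (y 1) Z _).1 hwZ
  have hrat : ∀ T : Set M, (m 0 : M) / (m 1 : M) ∈ acl ℝ T := fun T =>
    div_mem (int_mem_acl _ T) (int_mem_acl _ T)
  have hle : acl ℝ ({y 0 P} : Set M) ≤ acl ℝ (gens S y 0 1) := by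
    apply acl_le_of_subset
    rintro x rfl
    exact mem_acl_gens hT S y (le_refl 0) (by omega) P
  have hin01 : y 1 (muL S b P) ∈ acl ℝ (gens S y 0 1) := by
    have h1 : y 1 (muL S b P) = y 0 (muL S b P) +
        ((m 0 : M) / (m 1 : M)) * (y 1 (DD S b Z) * (y 0 (DD S (!b) P))⁻¹) := by
      rw [← hdiff]; ring
    rw [h1]
    exact add_mem (mem_acl_gens hT S y (le_refl 0) (by omega) _)
      (mul_mem (hrat _) (mul_mem (hle hwy)
        (inv_mem (mem_acl_gens hT S y (le_refl 0) (by omega) _))))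
  have hin1r : y 1 (muL S b P) ∈ acl ℝ (gens S y 1 r) :=
    mem_acl_gens hT S y (le_refl 1) (by omega) _
  have hpre := hP K M S Z P hZ0 hPZ r y t n (hch.mono (by omega))
  have hin : y 1 (muL S b P) ∈ acl ℝ ({y 0 P} : Set M) := by
    have h1 := (hR K M S r y _ _ hpre hq).1 1 (le_refl 1) (by omega) _ hin01 hin1r
    simp only [Nat.sub_self, ht0, outL, cond_true] at h1
    exact h1
  have hmuZ : muL S b P ∈ acl ℝ ({Z} : Set K) := by
    rw [← hacl] at hin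
    exact (m2_trn1 hT (y 1) Z _).2 hin
  have hD2mu : DD S (!b) (muL S b P) = 0 := by
    rw [hF3, ← haZ]
    exact hmuZ
  have hmuP1 : muL S b P * DD S (!b) P = DD S b P := by
    rw [muL, div_mul_cancel₀ _ hP2]
  have hD12 : DD S b (DD S (!b) P) = muL S b P * DD S (!b) (DD S (!b) P) := by
    rw [hCom K M S b P, ← hmuP1, Derivation.leibniz, hD2mu, smul_zero, add_zero, smul_eq_mul]
  have hP2P : DD S (!b) P ∈ acl ℝ ({P} : Set K) := by
    rw [hF5 P _ hP0, hD12, ← hmuP1]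
    ring
  have hyP2' : y 0 (DD S (!b) P) ∈ acl ℝ ({y 0 P} : Set M) := (m2_trn1 hT (y 0) P _).1 hP2P
  have hfin : y 0 (muL S b P) ∈ acl ℝ ({y 0 P} : Set M) := by
    have h1 : y 0 (muL S b P) = y 1 (muL S b P) -
        ((m 0 : M) / (m 1 : M)) * (y 1 (DD S b Z) * (y 0 (DD S (!b) P))⁻¹) := by
      rw [← hdiff]; ring
    rw [h1]
    exact sub_mem hin (mul_mem (hrat _) (mul_mem hwy (inv_mem hyP2')))
  exact hmuP ((m2_trn1 hT (y 0) P _).2 hfin)

end MP52exp
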