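import Pool.Agent.Lib.MP_52aaf2_al.LX.Stm

/-!
# MP_52aaf2_al, project LX: the piece LM3
-/

open Polynomial IntermediateField

namespace MP52exp

theorem Q_m3 (hMu : LMu) (hK : LKey) (hC : LCh) (hR : R1) (hP : LPre) (hT : Trn) (hG : LGn)
    (hD : LemD) (hDst : Dst) : LM3 := by
  intro K M _ _ _ _ S b Z P hgen r y t n hch hq hr htr ht1 m hm0 hmr hsum
  have hM0 : CharZero M := charZero_of_injective_algebraMap (algebraMap ℝ M).injective
  obtain ⟨ht0, -⟩ := hMu K M S b Z P hgen r y t n hch hq (by omega) htr m hm0 hmr hsum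
  obtain ⟨⟨hZ0, hP0, hPZ, hZP⟩, -, -, -, -, -⟩ := hG K M S b Z P hgen
  obtain ⟨δ, -, h1, h2, h3, -, h5⟩ :=
    hK K M S b Z P hgen r y t n hch hq (by omega) m hsum 1 (by omega)
  -- the values of `δ`
  obtain ⟨hz0, hp0⟩ := h1 0 (by omega) (by omega)
  obtain ⟨hz1, hp1⟩ := h2 1 (by omega) rfl
  have hr' := h3 (by omega)
  rw [ht0] at hz0 hp0
  rw [ht1] at hz1 hp1
  rw [htr] at hr'
  simp only [inL, outL, cond_true, cond_false] at hz0 hp0 hz1 hp1 hr'
  obtain ⟨-, -, -, c0⟩ := (hC K M S b (y 0) δ).2 Z P hgen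
  obtain ⟨-, -, -, c1⟩ := (hC K M S b (y 1) δ).2 Z P hgen
  obtain ⟨-, cr, -, -⟩ := (hC K M S b (y r) δ).2 Z P hgen
  obtain ⟨a0, b0⟩ := c0 hz0 hp0
  obtain ⟨a1, b1⟩ := c1 hp1 hz1
  have br := cr hr'
  have e1 := h5 b
  have e2 := h5 (!b)
  rw [if_pos (le_refl 1), if_pos (by omega : 1 < r)] at e1 e2
  simp only [Nat.sub_self] at e1 e2
  rw [a0, a1, mul_zero, mul_zero, zero_add, zero_add] at e1
  have hmr' : ((m r : ℤ) : M) ≠ 0 := by exact_mod_cast hmr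
  have hm0' : ((m 0 : ℤ) : M) ≠ 0 := by exact_mod_cast hm0
  have ar : tau S b (y r) δ = 0 := (mul_eq_zero.mp e1).resolve_left hmr'
  rw [ar, mul_zero, neg_zero] at br
  rw [br, b0, b1, mul_zero, add_zero] at e2
  -- `P₂ ≠ 0`
  have hP2 : DD S (!b) P ≠ 0 := hgen.h2
  have hy0 : y 0 (DD S (!b) P) ≠ 0 := by
    rw [Ne, map_eq_zero]; exact hP2
  have hy1 : y 1 (DD S (!b) P) ≠ 0 := by
    rw [Ne, map_eq_zero]; exact hP2
  have hm1 : m 1 ≠ 0 := by
    intro h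
    rw [h, Int.cast_zero, zero_mul, add_zero] at e2
    exact (mul_ne_zero hm0' (inv_ne_zero hy0)) e2
  have hm1' : ((m 1 : ℤ) : M) ≠ 0 := by exact_mod_cast hm1
  refine ⟨hm1, ?_⟩
  -- `y 1 P₂ = q y 0 P₂`
  have e3 : (m 0 : M) * y 1 (DD S (!b) P) + (m 1 : M) * y 0 (DD S (!b) P) = 0 := by
    have := congrArg (fun x => x * (y 0 (DD S (!b) P) * y 1 (DD S (!b) P))) e2
    simp only [zero_mul] at this
    rw [← this]
    field_simp
  have cq : ∀ a : ℤ, algebraMap ℝ M (a : ℝ) = (a : M) := fun a => map_intCast _ a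
  have e4 : y 1 (DD S (!b) P) = algebraMap ℝ M (-(m 1 : ℝ) / (m 0 : ℝ)) * y 0 (DD S (!b) P) := by
    rw [map_div₀, map_neg, cq, cq]
    field_simp
    linear_combination e3
  have e5 : y 0 (DD S (!b) P) = algebraMap ℝ M (-(m 0 : ℝ) / (m 1 : ℝ)) * y 1 (DD S (!b) P) := by
    rw [map_div₀, map_neg, cq, cq]
    field_simp
    linear_combination e3
  -- generators
  have hgenl : ∀ (l i j : ℕ), i ≤ l → l < j → ∀ h : K, y l h ∈ acl ℝ (gens S y i j) := by
    intro l i j hi hj h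
    have h1 : y l h ∈ acl ℝ ((y l) '' ({S.X, S.E} : Set K)) :=
      (hT ℝ K M (y l) _ h).mp (S.span h)
    refine acl_mono ?_ h1
    rw [Set.image_pair]
    intro x hx
    exact Set.mem_biUnion (show l ∈ Set.Ico i j from ⟨hi, hj⟩) hx
  have hpre := hP K M S Z P hZ0 hPZ r y t n (hch.mono (Nat.le_succ r))
  have h6 := (hR K M S r y _ _ hpre hq).1 1 le_rfl (by omega) (y 1 (DD S (!b) P))
    (by
      rw [e4]
      exact mul_mem ((acl ℝ (gens S y 0 1)).algebraMap_mem _)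
        (hgenl 0 0 1 le_rfl (by omega) _))
    (hgenl 1 1 r le_rfl (by omega) _)
  simp only [Nat.sub_self, ht0, outL, cond_true] at h6
  have h7 : y 0 (DD S (!b) P) ∈ acl ℝ ((y 0) '' ({P} : Set K)) := by
    rw [Set.image_singleton, e5]
    exact mul_mem ((acl ℝ ({y 0 P} : Set M)).algebraMap_mem _) h6
  have h8 : DD S (!b) P ∈ acl ℝ ({P} : Set K) := (hT ℝ K M (y 0) _ _).mpr h7
  -- the link
  have hl := hch.link 0 (by omega)
  have hn0 : n 0 ≠ 0 := hch.v 0 (by omega) (by rw [ht0, zero_add, ht1]; decide)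
  rw [ht0, zero_add, ht1] at hl
  simp only [inL, outL, cond_true, cond_false] at hl
  have h9 : IsAlgebraic ℝ (DD S (!b) P) := by
    refine hD ℝ K M (y 0) (y 1) P (DD S (!b) P) (n 0 : ℝ) (-(m 1 : ℝ) / (m 0 : ℝ)) ?_ ?_ ?_ ?_ ?_ e4
    · exact_mod_cast hn0
    · have k0 : (m 0 : ℝ) ≠ 0 := by exact_mod_cast hm0
      have k1 : (m 1 : ℝ) ≠ 0 := by exact_mod_cast hm1
      exact div_ne_zero (neg_ne_zero.mpr k1) k0
    · intro h
      exact hP0 (mem_acl_empty.mpr h)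
    · exact mem_acl_singleton.mp h8
    · rw [hl, cq]
  have h10 : S.D (y 0 (DD S (!b) P)) = 0 := by
    refine (hDst ℝ M ∅ S.D).2 (fun a ha => absurd ha (Set.notMem_empty a)) _ ?_
    have h12 := (hT ℝ K M (y 0) ∅ (DD S (!b) P)).mp (mem_acl_empty.mpr h9)
    rwa [Set.image_empty] at h12
  obtain ⟨g, hg⟩ := S.const _ h10
  have h11 : DD S (!b) P = algebraMap ℝ K g := by
    apply (y 0).toRingHom.injective
    change y 0 _ = y 0 _
    rw [← hg, AlgHom.commutes]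
  refine ⟨g, ?_, h11⟩
  rintro rfl
  rw [map_zero] at h11
  exact hP2 h11

end MP52exp
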