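import Pool.Agent.Lib.MP_52aaf2_al.LX.Stm

/-!
# MP_52aaf2_al, project LX: the piece LM4
-/

open Polynomial IntermediateField

namespace MP52exp

/-- **(LM4)** -/
theorem Q_m4 (hMu : LMu) (hK : LKey) (hC : LCh) (hN : LNb) (hT : Trn) (hF : LFac) (hG : LGn)
    (hCom : LCom) (hDst : Dst) : LM4 := by
  intro K M _ _ _ _ S b Z P hGen r y t n hch hQ hr htr ht1 m hm0 hmr hm1 hrel g hg hDP
  have := charM M
  cases b with
  | true =>
    obtain ⟨-, -, -, -, -, -, h7⟩ := hF K M S false
    have h1 : DD S false P ∈ acl ℝ (∅ : Set K) := by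
      have h2 : DD S false P = algebraMap ℝ K g := hDP
      rw [h2]
      exact _root_.algebraMap_mem _ _
    exact hGen.h2 (h7 rfl P h1)
  | false =>
    obtain ⟨-, -, h3, -, -, -, h7⟩ := hF K M S false
    obtain ⟨-, hZV, -, -, hw0, -⟩ := hG K M S false Z P hGen
    -- `P₁` is algebraic over `Z`, and not algebraic
    have hP1 : DD S (!false) (DD S false P) = 0 := by
      rw [← hCom K M S false P, hDP]
      exact Derivation.map_algebraMap _ _
    have hP1V : DD S false P ∈ acl ℝ ({Z} : Set K) := by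
      rw [hZV]
      exact (h3 _).1 hP1
    have hP1e : DD S false P ∉ acl ℝ (∅ : Set K) := fun h => hGen.h1 (h7 rfl P h)
    have hZP1 : Z ∈ acl ℝ ({DD S false P} : Set K) := by
      have e1 : DD S false P ∈ acl ℝ (insert Z (∅ : Set K)) := by
        simpa using hP1V
      have e2 := acl_exchange e1 hP1e
      simpa using e2
    obtain ⟨-, hmu⟩ := hMu K M S false Z P hGen r y t n hch hQ (by omega) htr m hm0 hmr hrel
    have hmuP : DD S false P = muL S false P * algebraMap ℝ K g := by
      rw [muL, hDP]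
      have : algebraMap ℝ K g ≠ 0 := by
        rw [Ne, FaithfulSMul.algebraMap_eq_zero_iff]
        exact hg
      field_simp
    have hyP : y r (DD S false P) = y 0 (DD S false P) := by
      rw [hmuP, map_mul, map_mul, hmu, AlgHom.commutes, AlgHom.commutes]
    have hyZ : y r Z ∈ acl ℝ ({y 0 (DD S false P)} : Set M) := by
      have e1 := (hT ℝ K M (y r) _ Z).1 hZP1
      rwa [Set.image_singleton, hyP] at e1
    obtain ⟨δ, hδ0, hδ1, hδ2, -, -, hδk⟩ := hK K M S false Z P hGen r y t n hch hQ (by omega) m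
      hrel 2 hr
    have hδy0 : δ (y 0 (DD S false P)) = 0 := hδ0 0 (by omega) (by omega) (by omega) _
    have hδyr : δ (y r Z) = 0 := by
      refine (hDst ℝ M ({y 0 (DD S false P)} : Set M) δ).2 ?_ _ hyZ
      intro a ha
      rw [Set.mem_singleton_iff] at ha
      rw [ha, hδy0]
    have hwne : ∀ z : K →ₐ[ℝ] M, z (DD S false Z) ≠ 0 := fun z => (map_ne_zero z).2 hw0
    -- `τ₁(y_r) = 0`
    have hτr : tau S false (y r) δ = 0 := by
      obtain ⟨e1, -⟩ := (hC K M S false (y r) δ).2 Z P hGen
      rw [hδyr] at e1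
      exact (mul_eq_zero.1 e1.symm).resolve_left (hwne _)
    -- `τ₁(y_1)`
    have h1 := hδ1 1 (by omega) (by omega)
    rw [ht1] at h1
    have h1a : δ (y 1 P) = 0 := h1.1
    have h1b : δ (y 1 Z) = 1 := h1.2
    have hτ1 : tau S false (y 1) δ = (y 1 (DD S false Z))⁻¹ :=
      ((hC K M S false (y 1) δ).2 Z P hGen).2.2.1 h1b h1a
    have hk := hδk false
    rw [hτr, mul_zero, add_zero, if_pos (by omega)] at hk
    change (m 1 : M) * tau S false (y 1) δ + _ = 0 at hk
    rw [hτ1] at hk
    have hm1M : (m 1 : M) ≠ 0 := Int.cast_ne_zero.2 hm1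
    have hne : (m 1 : M) * (y 1 (DD S false Z))⁻¹ ≠ 0 :=
      mul_ne_zero hm1M (inv_ne_zero (hwne _))
    by_cases hr3 : 2 < r
    · rw [if_pos hr3] at hk
      have h2 := hδ2 2 hr3 rfl
      cases ht2 : t 2 with
      | false =>
        rw [ht2] at h2
        have h2a : δ (y 2 P) = 1 := h2.1
        have h2b : δ (y 2 Z) = 0 := h2.2
        have hτ2 : tau S false (y 2) δ = 0 :=
          (((hC K M S false (y 2) δ).2 Z P hGen).2.2.2 h2b h2a).1
        rw [hτ2, mul_zero, add_zero] at hk
        exact hne hk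
      | true =>
        rw [ht2] at h2
        have h2a : δ (y 2 Z) = 1 := h2.1
        have h2b : δ (y 2 P) = 0 := h2.2
        have hτ2 : tau S false (y 2) δ = (y 2 (DD S false Z))⁻¹ :=
          ((hC K M S false (y 2) δ).2 Z P hGen).2.2.1 h2a h2b
        rw [hτ2] at hk
        have hlink := hch.link 1 (by omega)
        change y 2 (inL Z P (t 2)) = _ at hlink
        rw [ht2, ht1] at hlink
        have hlink' : y 2 Z = y 1 Z + (n 1 : M) := hlink
        have hn1 : n 1 ≠ 0 := by
          refine hch.v 1 (by omega) ?_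
          change t 1 ≠ t 2
          rw [ht1, ht2]
          simp
        exact hN K M S false Z P hGen (y 1) (y 2) (n 1) (m 1) (m 2) hn1 hm1 hlink' hk
    · rw [if_neg hr3, add_zero] at hk
      exact hne hk

end MP52exp
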