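import Pool.Agent.Lib.MP_52aaf2_al.LX.Stm

set_option autoImplicit false

open Polynomial IntermediateField Filter Topology

namespace MP52exp

theorem Q_mu (hK : LKey) (hC : LCh) (hG : LGn) : LMu := by
  intro K M _ _ _ _ S b Z P hL r y t n hch hQ hr htr m hm0 hmr hc
  obtain ⟨δ, -, -, h3, h4, -, h6⟩ := hK K M S b Z P hL r y t n hch hQ hr m hc 0 (Nat.zero_le _)
  obtain ⟨h3a, h3b⟩ := h3 0 (by omega) rfl
  have h4' := h4 (by omega)
  rw [htr] at h4'
  have hcz : CharZero M := charZero_of_injective_algebraMap (algebraMap ℝ M).injective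
  have hm0' : (m 0 : M) ≠ 0 := Int.cast_ne_zero.mpr hm0
  obtain ⟨-, -, -, -, hw, -⟩ := hG K M S b Z P hL
  have e1 : tau S (!b) (y r) δ = -(y r (muL S b P) * tau S b (y r) δ) :=
    ((hC K M S b (y r) δ).2 Z P hL).2.1 h4'
  have hpos : 0 < r := by omega
  have key : ∀ c : Bool, (m 0 : M) * tau S c (y 0) δ + (m r : M) * tau S c (y r) δ = 0 := by
    intro c
    have h := h6 c
    simpa [hpos] using h
  have k1 := key b
  have k2 := key (!b)
  have e2 : tau S (!b) (y 0) δ = -(y r (muL S b P) * tau S b (y 0) δ) := by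
    apply mul_left_cancel₀ hm0'
    rw [e1] at k2
    linear_combination k2 + y r (muL S b P) * k1
  obtain ⟨-, c2, c3, c4⟩ := (hC K M S b (y 0) δ).2 Z P hL
  cases ht : t 0 with
  | false =>
    exfalso
    rw [ht] at h3a h3b
    obtain ⟨d1, d2⟩ := c4 h3b h3a
    rw [d1, d2, mul_zero, neg_zero] at e2
    have h7 : y 0 (DD S (!b) P) = 0 := inv_eq_zero.mp e2
    exact hL.h2 ((map_eq_zero (y 0)).mp h7)
  | true =>
    refine ⟨rfl, ?_⟩
    rw [ht] at h3a h3b
    have d1 := c3 h3a h3b
    have d2 := c2 h3b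
    have hne : tau S b (y 0) δ ≠ 0 := by
      rw [d1]
      exact inv_ne_zero (fun h => hw ((map_eq_zero (y 0)).mp h))
    rw [d2] at e2
    have := neg_injective e2
    exact (mul_right_cancel₀ hne this).symm

end MP52exp
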