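import Pool.Agent.Lib.MP_52aaf2_al.LX.Stm

/-!
# MP_52aaf2_al, project LX, piece nb: neighbours of type `β⁻¹, β`
-/

set_option autoImplicit false

open Polynomial IntermediateField

namespace MP52exp

theorem Q_nb (hG : LGn) (hD : LemD) : LNb := by
  intro K M _ _ _ _ S b Z P hL y z n m m' hn hm hz hrel
  obtain ⟨⟨hZ0, -, -, -⟩, -, -, hw1, hw2, -⟩ := hG K M S b Z P hL
  have : CharZero M := charZero_of_injective_algebraMap (algebraMap ℝ M).injective
  set w : K := DD S b Z with hw
  have hyw : y w ≠ 0 := (map_ne_zero y).mpr hw2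
  have hzw : z w ≠ 0 := (map_ne_zero z).mpr hw2
  have hmM : (m : M) ≠ 0 := by exact_mod_cast hm
  have hmR : (m : ℝ) ≠ 0 := by exact_mod_cast hm
  have h1 : (m : M) * z w + (m' : M) * y w = 0 := by
    field_simp at hrel
    linear_combination hrel
  have h2 : z w = algebraMap ℝ M (-(m' : ℝ) / m) * y w := by
    rw [map_div₀, map_neg, map_intCast, map_intCast]
    field_simp
    linear_combination h1
  have hq : (-(m' : ℝ) / m) ≠ 0 := by
    intro h0
    rw [h0, map_zero, zero_mul] at h2
    exact hzw h2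
  have hnR : (n : ℝ) ≠ 0 := by exact_mod_cast hn
  have htr : Transcendental ℝ Z := fun h => hZ0 (mem_acl_empty.mpr h)
  have halg : IsAlgebraic ℝ⟮Z⟯ w := mem_acl_singleton.mp hw1
  have h3 := hD ℝ K M y z Z w (n : ℝ) (-(m' : ℝ) / m) hnR hq htr halg
    (by rw [map_intCast]; exact hz) h2
  exact hL.hw (mem_acl_empty.mpr h3)

end MP52exp
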