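import Pool.Agent.Lib.MP_52aaf2_al.LX.Stm

/-!
# MP_52aaf2_al, project LX: piece `LPre`
-/

open Polynomial IntermediateField

namespace MP52exp

/-- exchange for two elements -/
theorem lpre_exch {k F : Type} [Field k] [Field F] [Algebra k F] {Z P : F}
    (hZ : Z ∉ acl k (∅ : Set F)) (hP : P ∉ acl k ({Z} : Set F)) :
    P ∉ acl k (∅ : Set F) ∧ Z ∉ acl k ({P} : Set F) := by
  refine ⟨fun h => hP (acl_mono (Set.empty_subset _) h), fun h => hP ?_⟩
  have e1 : ({P} : Set F) = insert P ∅ := by simp
  have e2 : ({Z} : Set F) = insert Z ∅ := by simp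
  rw [e1] at h
  rw [e2]
  exact acl_exchange h hZ

/-- a shift by an integer does not change the closure -/
theorem lpre_add_int {k F : Type} [Field k] [Field F] [Algebra k F] (u : F) (n : ℤ) :
    acl k ({u + (n : F)} : Set F) = acl k ({u} : Set F) := by
  have hu : u ∈ acl k ({u} : Set F) := subset_acl _ (Set.mem_singleton _)
  have hv : u + (n : F) ∈ acl k ({u + (n : F)} : Set F) := subset_acl _ (Set.mem_singleton _)
  apply acl_eq_of_subset
  · intro x hx
    rw [Set.mem_singleton_iff] at hx
    rw [hx]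
    exact add_mem hu (intCast_mem _ n)
  · intro x hx
    rw [Set.mem_singleton_iff] at hx
    rw [hx]
    have h1 : u + (n : F) - (n : F) ∈ acl k ({u + (n : F)} : Set F) :=
      sub_mem hv (intCast_mem _ n)
    rwa [add_sub_cancel_right] at h1

/-- **(LPre)**; no dependence on `Trn` is needed -/
theorem Q_pre' : LPre := by
  intro K M _ _ _ _ S Z P hZ hP r y t n hc
  obtain ⟨hP0, hZP⟩ := lpre_exch hZ hP
  refine ⟨hc.pt, ?_, ?_, ?_⟩
  · intro j _
    show inL Z P (t j) ∉ acl ℝ (∅ : Set K)
    cases t j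
    · exact hP0
    · exact hZ
  · intro j _
    show outL Z P (t j) ∉ acl ℝ ({inL Z P (t j)} : Set K)
    cases t j
    · exact hZP
    · exact hP
  · intro j hj
    show acl ℝ ({y (j + 1) (inL Z P (t (j + 1)))} : Set M) =
      acl ℝ ({y j (outL Z P (t j))} : Set M)
    rw [hc.link j hj]
    exact lpre_add_int _ _

theorem Q_pre (_ : Trn) : LPre := Q_pre'

end MP52exp
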