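import Pool.Agent.Lib.MP_52aaf2_al.LX.Stm

/-!
# MP_52aaf2_al, project LX: piece LRel
-/

open Polynomial IntermediateField

namespace MP52exp

/-- an integer relation modulo constants is a relation between the derivatives -/
private theorem rel_D {K M : Type} [Field K] [Field M] [Algebra ℝ K] [Algebra ℝ M] {S : Sys K M}
    (r : ℕ) (y : ℕ → (K →ₐ[ℝ] M)) (m : ℕ → ℤ)
    (hc : ∃ c : ℝ, ∑ j ∈ Finset.range r, (m j : M) * y j S.X = algebraMap ℝ M c)
    (δ : Derivation ℝ M M) : ∑ j ∈ Finset.range r, (m j : M) * δ (y j S.X) = 0 := by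
  obtain ⟨c, hc⟩ := hc
  have h1 : δ (∑ j ∈ Finset.range r, (m j : M) * y j S.X) = 0 := by
    rw [hc, Derivation.map_algebraMap]
  rw [map_sum] at h1
  rw [← h1]
  exact Finset.sum_congr rfl fun j _ => (D_int δ (m j) (y j S.X)).symm

theorem Q_rel : LRel := by
  intro K M _ _ _ _ S r y hpt m hc b δ
  cases b with
  | true => exact rel_D r y m hc δ
  | false =>
    change ∑ j ∈ Finset.range r, (m j : M) * (δ (y j S.E) / y j S.E) = 0
    obtain ⟨h1, h2⟩ := logD_prod S.D (fun j => y j S.E) m r (fun l _ => pt_E_ne (S := S) (y l))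
    obtain ⟨-, h3⟩ := logD_prod δ (fun j => y j S.E) m r (fun l _ => pt_E_ne (S := S) (y l))
    have h4 : ∑ l ∈ Finset.range r, (m l : M) * (S.D (y l S.E) / y l S.E) = 0 := by
      have h5 : ∑ l ∈ Finset.range r, (m l : M) * (S.D (y l S.E) / y l S.E) =
          algebraMap ℝ M S.lam * ∑ l ∈ Finset.range r, (m l : M) * S.D (y l S.X) := by
        rw [Finset.mul_sum]
        refine Finset.sum_congr rfl fun l hl => ?_
        rw [pt_log (hpt l (Finset.mem_range.1 hl))]
        ring
      rw [h5, rel_D r y m hc S.D, mul_zero]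
    rw [h4] at h2
    have h6 : S.D (∏ l ∈ Finset.range r, y l S.E ^ m l) = 0 := by
      rcases div_eq_zero_iff.1 h2 with h | h
      · exact h
      · exact absurd h h1
    obtain ⟨c', hc'⟩ := S.const _ h6
    rw [← h3, ← hc', Derivation.map_algebraMap, zero_div]

end MP52exp
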