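import Pool.Agent.Lib.MP_52aaf2_al.LX.Stm

/-!
# MP_52aaf2_al, project LX: from chains to freeness
-/

set_option autoImplicit false

open Filter Topology

open MP52aaf2 (GermGroup germ alpha FreePair germ_eq_iff germ_mul)

namespace MP52exp

private theorem lwb_shift (n : ℤ) :
    (OrderIso.addRight (1 : ℝ)) ^ n = OrderIso.addRight (n : ℝ) := by
  induction n using Int.induction_on with
  | zero =>
    rw [zpow_zero]
    ext x
    change x = x + ((0 : ℤ) : ℝ)
    simp
  | succ i ih =>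
    rw [zpow_add_one, ih]
    ext x
    change (x + 1) + (((i : ℕ) : ℤ) : ℝ) = x + (((i : ℕ) : ℤ) + 1 : ℤ)
    push_cast
    ring
  | pred i ih =>
    rw [zpow_sub_one, ih]
    ext x
    change (x + -1) + ((-((i : ℕ) : ℤ) : ℤ) : ℝ) = x + ((-((i : ℕ) : ℤ) - 1 : ℤ) : ℝ)
    push_cast
    ring

private theorem lwb_alpha (n : ℤ) : alpha ^ n = germ (OrderIso.addRight (n : ℝ)) := by
  rw [alpha, MP52aaf2.germ_zpow, lwb_shift]

/-- the data carried by a group element -/
private structure LwbD {lam : ℝ} (S : Sys (KF lam) MG) (Z P : KF lam) (g : GermGroup)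
    (c : Bool) (q : ℕ) (y : ℕ → (KF lam →ₐ[ℝ] MG)) (t : ℕ → Bool) (n : ℕ → ℤ) (n₀ : ℤ)
    (f : ℝ ≃o ℝ) (hf : f ∈ AnG) : Prop where
  ger : germ f = g
  ch : LChain S Z P (q + 1) y t n
  typ : t q = c
  las : mmk f hf.1 = y q (outL Z P (t q))
  fir : y 0 (inL Z P (t 0)) =
    mmk (fun x => x + (n₀ : ℝ)) (evAn_id.add (evAn_const (n₀ : ℝ)))

private def LwbS {lam : ℝ} (S : Sys (KF lam) MG) (Z P : KF lam) (c : Bool) (g : GermGroup) :
    Prop :=
  ∃ q y t n n₀ f, ∃ hf : f ∈ AnG, LwbD S Z P g c q y t n n₀ f hf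

/-- adding a point at the end -/
private theorem lwb_ext {lam : ℝ} (S : Sys (KF lam) MG) (Z P : KF lam) {q : ℕ}
    {y : ℕ → (KF lam →ₐ[ℝ] MG)} {t : ℕ → Bool} {n : ℕ → ℤ} (ch : LChain S Z P (q + 1) y t n)
    (z : KF lam →ₐ[ℝ] MG) (hz : z ∈ S.Pt) (τ : Bool) (ν : ℤ)
    (hl : z (inL Z P τ) = y q (outL Z P (t q)) + (ν : MG))
    (h1 : t q ≠ τ → ν ≠ 0) :
    LChain S Z P (q + 1 + 1) (Function.update y (q + 1) z) (Function.update t (q + 1) τ)
      (Function.update n q ν) := by
  have hy : ∀ j, j < q + 1 → Function.update y (q + 1) z j = y j := fun j hj =>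
    Function.update_of_ne (by omega) _ _
  have ht : ∀ j, j < q + 1 → Function.update t (q + 1) τ j = t j := fun j hj =>
    Function.update_of_ne (by omega) _ _
  have hn : ∀ j, j < q → Function.update n q ν j = n j := fun j hj =>
    Function.update_of_ne (by omega) _ _
  refine ⟨?_, ?_, ?_⟩
  · intro j hj
    rcases Nat.lt_or_ge j (q + 1) with h | h
    · rw [hy j h]; exact ch.pt j h
    · have : j = q + 1 := by omega
      subst this
      rw [Function.update_self]; exact hz
  · intro j hj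
    rcases Nat.lt_or_ge (j + 1) (q + 1) with h | h
    · rw [hy j (by omega), hy _ h, ht _ h, ht j (by omega), hn j (by omega)]
      exact ch.link j h
    · have : j = q := by omega
      subst this
      rw [Function.update_self, Function.update_self, Function.update_self, hy j (by omega),
        ht j (by omega)]
      exact hl
  · intro j hj
    rcases Nat.lt_or_ge (j + 1) (q + 1) with h | h
    · rw [ht _ h, ht j (by omega), hn j (by omega)]
      exact ch.v j h
    · have : j = q := by omega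
      subst this
      rw [Function.update_self, Function.update_self, ht j (by omega)]
      exact h1

private theorem lwb_mmk_add_int {f : ℝ → ℝ} (hf : EvAn f) (n : ℤ) :
    mmk f hf + (n : MG) = mmk (fun x => f x + (n : ℝ)) (hf.add (evAn_const _)) := by
  have h1 : (n : MG) = mmk (fun _ => (n : ℝ)) (evAn_const _) := by
    rw [← algebraMap_MG, map_intCast]
  rw [h1, mmk_add]

theorem Q_wb (hWa : Wa) : LWb := by
  intro lam S hS T β hT hβ Z P hZa hPa hZ hP hch
  have hβs : β.symm ∈ AnG := AnG.inv_mem hβ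
  -- the germ of `α ^ n g`
  have hag : ∀ (f : ℝ ≃o ℝ) (n : ℤ), alpha ^ n * germ f = germ (OrderIso.addRight (n : ℝ) * f) :=
    fun f n => by rw [lwb_alpha, germ_mul]
  -- new point
  have hp : ∀ (g : ℝ ≃o ℝ) (hg : g ∈ AnG), ∃ z ∈ S.Pt, z Z = mmk g hg.1 ∧
      z P = mmk (fun x => β (g x)) (EvAn.comp hβ.1 hg.1) := by
    intro g hg
    have hTg : T * g ∈ AnG := AnG.mul_mem hT hg
    obtain ⟨z, hz, hz'⟩ := hS.pt (T * g) hTg
    refine ⟨z, hz, ?_, ?_⟩
    · rw [hz' Z _ hZa (EvAn.comp hZa hTg.1) hZ, mmk_eq]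
      refine Eventually.of_forall fun x => ?_
      change T.symm (T (g x)) = g x
      rw [OrderIso.symm_apply_apply]
    · rw [hz' P _ hPa (EvAn.comp hPa hTg.1) hP, mmk_eq]
      refine Eventually.of_forall fun x => ?_
      change β (T.symm (T (g x))) = β (g x)
      rw [OrderIso.symm_apply_apply]
  -- new point of type `false`
  have hm : ∀ (g : ℝ ≃o ℝ) (hg : g ∈ AnG) (hg' : β.symm * g ∈ AnG), ∃ z ∈ S.Pt,
      z Z = mmk (β.symm * g : ℝ ≃o ℝ) hg'.1 ∧ z P = mmk g hg.1 := by
    intro g hg hg'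
    obtain ⟨z, hz, hz1, hz2⟩ := hp _ hg'
    refine ⟨z, hz, hz1, ?_⟩
    rw [hz2, mmk_eq]
    refine Eventually.of_forall fun x => ?_
    change β (β.symm (g x)) = g x
    rw [OrderIso.apply_symm_apply]
  have hfm : ∀ {f : ℝ ≃o ℝ} (n : ℤ), f ∈ AnG → OrderIso.addRight (n : ℝ) * f ∈ AnG :=
    fun n hf => AnG.mul_mem (shift_mem _) hf
  -- adding a point of type `true`
  have addT : ∀ (c : Bool) (g : GermGroup), LwbS S Z P c g → ∀ n : ℤ, (c ≠ true → n ≠ 0) →
      LwbS S Z P true (germ β * alpha ^ n * g) := by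
    rintro c g ⟨q, y, t, ν, n₀, f, hf, hd⟩ n hn
    obtain ⟨z, hz, hz1, hz2⟩ := hp _ (hfm n hf)
    refine ⟨q + 1, Function.update y (q + 1) z, Function.update t (q + 1) true,
      Function.update ν q n, n₀, β * (OrderIso.addRight (n : ℝ) * f),
      AnG.mul_mem hβ (hfm n hf), ⟨?_, lwb_ext S Z P hd.ch z hz true n ?_ ?_, ?_, ?_, ?_⟩⟩
    · rw [mul_assoc, ← hd.ger, hag, germ_mul]
    · rw [← hd.las, lwb_mmk_add_int]
      exact hz1
    · intro h
      exact hn (fun h' => h (hd.typ.trans h'))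
    · rw [Function.update_self]
    · rw [Function.update_self, Function.update_self]; exact hz2.symm
    · rw [Function.update_of_ne (by omega), Function.update_of_ne (by omega)]; exact hd.fir
  -- adding a point of type `false`
  have addF : ∀ (c : Bool) (g : GermGroup), LwbS S Z P c g → ∀ n : ℤ, (c ≠ false → n ≠ 0) →
      LwbS S Z P false ((germ β)⁻¹ * alpha ^ n * g) := by
    rintro c g ⟨q, y, t, ν, n₀, f, hf, hd⟩ n hn
    have hg' : β.symm * (OrderIso.addRight (n : ℝ) * f) ∈ AnG := AnG.mul_mem hβs (hfm n hf)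
    obtain ⟨z, hz, hz1, hz2⟩ := hm _ (hfm n hf) hg'
    refine ⟨q + 1, Function.update y (q + 1) z, Function.update t (q + 1) false,
      Function.update ν q n, n₀, β.symm * (OrderIso.addRight (n : ℝ) * f), hg',
      ⟨?_, lwb_ext S Z P hd.ch z hz false n ?_ ?_, ?_, ?_, ?_⟩⟩
    · rw [mul_assoc, ← hd.ger, hag, MP52aaf2.germ_inv, germ_mul]; rfl
    · rw [← hd.las, lwb_mmk_add_int]
      exact hz2
    · intro h
      exact hn (fun h' => h (hd.typ.trans h'))
    · rw [Function.update_self]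
    · rw [Function.update_self, Function.update_self]; exact hz1.symm
    · rw [Function.update_of_ne (by omega), Function.update_of_ne (by omega)]; exact hd.fir
  refine hWa GermGroup alpha (germ β) (LwbS S Z P true) (LwbS S Z P false) ?_ ?_ ?_ ?_ ?_ ?_ ?_ ?_
  · -- powers of `α`
    intro n hn h
    rw [lwb_alpha, ← MP52aaf2.germ_one, germ_eq_iff] at h
    obtain ⟨x, hx⟩ := h.exists
    have hx' : x + (n : ℝ) = x := hx
    have : (n : ℝ) = 0 := by linarith
    exact hn (by exact_mod_cast this)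
  · -- `β α ^ n`
    intro n
    obtain ⟨z, hz, hz1, hz2⟩ := hp _ (shift_mem (n : ℝ))
    refine ⟨0, fun _ => z, fun _ => true, fun _ => 0, n, β * OrderIso.addRight (n : ℝ),
      AnG.mul_mem hβ (shift_mem _), ⟨?_, ⟨?_, ?_, ?_⟩, rfl, ?_, ?_⟩⟩
    · rw [lwb_alpha, germ_mul]
    · exact fun _ _ => hz
    · intro j hj; omega
    · intro j hj; omega
    · exact hz2.symm
    · exact hz1
  · -- `β⁻¹ α ^ n`
    intro n
    have hg' : β.symm * OrderIso.addRight (n : ℝ) ∈ AnG := AnG.mul_mem hβs (shift_mem _)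
    obtain ⟨z, hz, hz1, hz2⟩ := hm _ (shift_mem (n : ℝ)) hg'
    refine ⟨0, fun _ => z, fun _ => false, fun _ => 0, n, β.symm * OrderIso.addRight (n : ℝ),
      hg', ⟨?_, ⟨?_, ?_, ?_⟩, rfl, ?_, ?_⟩⟩
    · rw [lwb_alpha, MP52aaf2.germ_inv, germ_mul]; rfl
    · exact fun _ _ => hz
    · intro j hj; omega
    · intro j hj; omega
    · exact hz1.symm
    · exact hz2
  · exact fun g hg n => addT true g hg n (fun h => absurd rfl h)
  · exact fun g hg n hn => addF true g hg n (fun _ => hn)
  · exact fun g hg n => addF false g hg n (fun h => absurd rfl h)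
  · exact fun g hg n hn => addT false g hg n (fun _ => hn)
  · -- the end
    have key : ∀ (g : GermGroup) (c : Bool), LwbS S Z P c g → ∀ n : ℤ, alpha ^ n * g ≠ 1 := by
      rintro g c ⟨q, y, t, ν, n₀, f, hf, hd⟩ n h
      rw [← hd.ger, hag, ← MP52aaf2.germ_one, germ_eq_iff] at h
      refine hch (q + 1) y t ν hd.ch (by omega) ?_
      rw [Nat.add_sub_cancel, hd.fir, ← hd.las]
      have h1 : mmk (fun x => x + (n₀ : ℝ)) (evAn_id.add (evAn_const (n₀ : ℝ))) =
          mmk f hf.1 + ((n + n₀ : ℤ) : MG) := by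
        rw [lwb_mmk_add_int, mmk_eq]
        filter_upwards [h] with x hx
        have hx' : f x + (n : ℝ) = x := hx
        push_cast
        linarith
      rw [h1]
      refine add_mem (subset_acl _ (Set.mem_singleton _)) ?_
      exact intCast_mem _ _
    rintro g (hg | hg) n
    · exact key g _ hg n
    · exact key g _ hg n

end MP52exp
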