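import Pool.Agent.Lib.MP_52aaf2_al.LX.Core2
import Pool.Agent.Lib.MP_52aaf2_al.LX.Q_af
import Pool.Agent.Lib.MP_52aaf2_al.LX.Q_c1
import Pool.Agent.Lib.MP_52aaf2_al.LX.Q_casP
import Pool.Agent.Lib.MP_52aaf2_al.LX.Q_ch
import Pool.Agent.Lib.MP_52aaf2_al.LX.Q_com
import Pool.Agent.Lib.MP_52aaf2_al.LX.Q_der
import Pool.Agent.Lib.MP_52aaf2_al.LX.Q_dgi
import Pool.Agent.Lib.MP_52aaf2_al.LX.Q_dgn
import Pool.Agent.Lib.MP_52aaf2_al.LX.Q_el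
import Pool.Agent.Lib.MP_52aaf2_al.LX.Q_fac
import Pool.Agent.Lib.MP_52aaf2_al.LX.Q_gn
import Pool.Agent.Lib.MP_52aaf2_al.LX.Q_k3
import Pool.Agent.Lib.MP_52aaf2_al.LX.Q_lg
import Pool.Agent.Lib.MP_52aaf2_al.LX.Q_m2
import Pool.Agent.Lib.MP_52aaf2_al.LX.Q_m3
import Pool.Agent.Lib.MP_52aaf2_al.LX.Q_m4
import Pool.Agent.Lib.MP_52aaf2_al.LX.Q_mu
import Pool.Agent.Lib.MP_52aaf2_al.LX.Q_nb
import Pool.Agent.Lib.MP_52aaf2_al.LX.Q_nf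
import Pool.Agent.Lib.MP_52aaf2_al.LX.Q_pre
import Pool.Agent.Lib.MP_52aaf2_al.LX.Q_rel
import Pool.Agent.Lib.MP_52aaf2_al.LX.Q_wb

/-!
# MP_52aaf2_al, project LX: germs algebraic over `ℝ(x, e^{h(x)})` or over `ℝ(x, log h(x))`
-/

open Filter Topology

open MP52aaf2 (GermGroup germ alpha FreePair IsAlgGerm IsAlgFun)

namespace MP52exp

theorem s_lcom : LCom := Q_com P_dst

theorem s_lfac : LFac := Q_fac s_jac P_dst s_lemL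

theorem s_lgn : LGn := Q_gn s_lfac s_mun

theorem s_lch : LCh := Q_ch P_cr s_lgn

theorem s_lrel : LRel := Q_rel

theorem s_lpre : LPre := Q_pre'

theorem s_lder : LDer := Q_der s_gr s_lpre s_jac P_trn P_der1

theorem s_lkey : LKey := lkey s_lder s_lrel s_lgn

theorem s_lnb : LNb := Q_nb s_lgn s_lemD

theorem s_lcasP : LCasP := Q_casP s_lkey s_lch s_lnb s_lgn

theorem s_lmu : LMu := Q_mu s_lkey s_lch s_lgn

theorem s_lm2 : LM2 := Q_m2 s_lmu s_lkey s_lch s_r1 s_lpre P_trn s_lfac s_lgn s_lcom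

theorem s_lm3 : LM3 := Q_m3 s_lmu s_lkey s_lch s_r1 s_lpre P_trn s_lgn s_lemD P_dst

theorem s_lm4 : LM4 := Q_m4 s_lmu s_lkey s_lch s_lnb P_trn s_lfac s_lgn s_lcom P_dst

theorem s_lemBp : LemBp :=
  P_lemBp P_der1 P_trn P_cr s_lemI s_lemD s_lemD2 P_dst s_mun s_lemL s_jac

theorem s_lind : LInd := lind s_lemBp s_lcasP s_lmu s_lm2 s_lm3 s_lm4

theorem s_ldgn : LDgN := Q_dgn s_lfac s_lrel P_cr P_trn P_der1 s_lemD

theorem s_ldgi : LDgI := Q_dgi s_lfac s_ldgn s_expc P_trn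

theorem s_laf : LAf := Q_af s_lfac P_cr P_nder P_dst

theorem s_lwb : LWb := Q_wb P_wa

theorem s_lel : LEl := Q_el s_nk

theorem s_lk3 : LK3 := Q_k3 s_dic

/-- the theorem for a coordinate `T` -/
theorem s_lmain {T β : ℝ ≃o ℝ} (hT : T ∈ AnG) (hβ : β ∈ AnG) (b : Bool)
    (hZT : mmk (fun x => T.symm x) hT.2 ∈ acl ℝ ({bif b then xx else ee 1} : Set MG))
    (hg : EvAn fun x => β (T.symm x)) (hPK : mmk _ hg ∈ KF 1)
    (hTa : b = true → ¬ ∃ a c : ℝ, ∀ᶠ x in atTop, T x = a * x + c)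
    (hβ0 : ¬ ∃ Q : MvPolynomial (Fin 2) ℝ, Q ≠ 0 ∧
      ∀ᶠ x in atTop, MvPolynomial.aeval ![x, β x] Q = 0)
    (hβT : b = false → ¬ ∃ a c : ℝ, ∀ᶠ x in atTop, β x = a * T x + c) :
    FreePair alpha (germ β) :=
  lmain s_lfac s_lgn s_lind s_lpre s_ldgi s_laf s_lwb hT hβ b hZT hg hPK hTa hβ0 hβT

/-- **Case A.** -/
theorem s_caseA {h β : ℝ ≃o ℝ} (hh : ∃ Q : MvPolynomial (Fin 2) ℝ, Q ≠ 0 ∧
      ∀ᶠ x in atTop, MvPolynomial.aeval ![x, h x] Q = 0)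
    (ha : ¬ ∃ a c : ℝ, ∀ᶠ x in atTop, h x = a * x + c)
    (h0 : ¬ ∃ Q : MvPolynomial (Fin 2) ℝ, Q ≠ 0 ∧
      ∀ᶠ x in atTop, MvPolynomial.aeval ![x, β x] Q = 0)
    (h1 : ∃ Q : MvPolynomial (Fin 3) ℝ, Q ≠ 0 ∧
      ∀ᶠ x in atTop, MvPolynomial.aeval ![x, Real.exp (h x), β x] Q = 0) :
    FreePair alpha (germ β) :=
  caseA s_lmain s_lel s_lk3 hh ha h0 h1

/-- **Case B.** -/
theorem s_caseB {h β : ℝ ≃o ℝ} (hh : ∃ Q : MvPolynomial (Fin 2) ℝ, Q ≠ 0 ∧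
      ∀ᶠ x in atTop, MvPolynomial.aeval ![x, h x] Q = 0)
    (ha : ¬ ∃ a c : ℝ, ∀ᶠ x in atTop, β x = a * Real.log (h x) + c)
    (h0 : ¬ ∃ Q : MvPolynomial (Fin 2) ℝ, Q ≠ 0 ∧
      ∀ᶠ x in atTop, MvPolynomial.aeval ![x, β x] Q = 0)
    (h1 : ∃ Q : MvPolynomial (Fin 3) ℝ, Q ≠ 0 ∧
      ∀ᶠ x in atTop, MvPolynomial.aeval ![x, Real.log (h x), β x] Q = 0) :
    FreePair alpha (germ β) :=
  caseB s_lmain s_lel s_lk3 Q_lg hh ha h0 h1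

/-- **Case C.** -/
theorem s_caseC {h β : ℝ ≃o ℝ} (hh : ∃ Q : MvPolynomial (Fin 2) ℝ, Q ≠ 0 ∧
      ∀ᶠ x in atTop, MvPolynomial.aeval ![x, h x] Q = 0)
    (ha : ∃ a c : ℝ, ∀ᶠ x in atTop, β x = a * Real.log (h x) + c) :
    IsAlgGerm ((germ β)⁻¹ * alpha * germ β) ∧
      (FreePair alpha (germ β) ↔ FreePair alpha ((germ β)⁻¹ * alpha * germ β)) :=
  caseC Q_c1 Q_nf hh ha

/-- `h = id` -/
theorem s_caseD {β : ℝ ≃o ℝ}
    (h0 : ¬ ∃ Q : MvPolynomial (Fin 2) ℝ, Q ≠ 0 ∧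
      ∀ᶠ x in atTop, MvPolynomial.aeval ![x, β x] Q = 0)
    (h1 : ∃ Q : MvPolynomial (Fin 3) ℝ, Q ≠ 0 ∧
      ∀ᶠ x in atTop, MvPolynomial.aeval ![x, Real.log x, β x] Q = 0) :
    FreePair alpha (germ β) ↔ ¬ ∃ a c : ℝ, ∀ᶠ x in atTop, β x = a * Real.log x + c := by
  constructor
  · rintro h ⟨a, c, hac⟩
    exact Q_nf.1 β a c hac h
  · intro h
    refine s_caseB (h := OrderIso.refl ℝ) ?_ h h0 h1
    refine ⟨MvPolynomial.X 0 - MvPolynomial.X 1, ?_, ?_⟩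
    · intro h2
      have h3 : (MvPolynomial.X (0 : Fin 2) : MvPolynomial (Fin 2) ℝ) = MvPolynomial.X 1 :=
        sub_eq_zero.1 h2
      exact absurd (MvPolynomial.X_injective h3) (by decide)
    · exact Eventually.of_forall fun x => by simp

end MP52exp
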