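import Pool.Agent.Lib.MP_52aaf2_al.LX.Stm
import Pool.Agent.Lib.MP_52aaf2_al.EX.P_dic

/-!
# MP_52aaf2_al, project LX: elimination
-/

set_option autoImplicit false

open Filter Topology

namespace MP52exp

section gen

variable {R S A : Type*} [CommRing R] [IsDomain R] [CommRing S] [IsDomain S] [CommRing A]
  [Algebra R S] [Algebra S A] [Algebra R A] [IsScalarTower R S A]

/-- a root of a nonzero polynomial with algebraic coefficients is algebraic -/
private theorem el_alg (p : Polynomial S) (hp : p ≠ 0) (hc : ∀ i, IsAlgebraic R (p.coeff i))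
    (f : A) (hf : Polynomial.aeval f p = 0) : IsAlgebraic R f := by
  have hlift : p ∈ Polynomial.lifts (algebraMap (Subalgebra.algebraicClosure R S) S) := by
    rw [Polynomial.lifts_iff_coeff_lifts]
    intro i
    exact ⟨⟨p.coeff i, hc i⟩, rfl⟩
  rw [Polynomial.mem_lifts] at hlift
  obtain ⟨q, hq⟩ := hlift
  have hq0 : q ≠ 0 := by
    rintro rfl
    rw [Polynomial.map_zero] at hq
    exact hp hq.symm
  have h1 : IsAlgebraic (Subalgebra.algebraicClosure R S) f := by
    refine ⟨q, hq0, ?_⟩
    rw [← hq, Polynomial.aeval_map_algebraMap] at hf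
    exact hf
  exact h1.restrictScalars R

end gen

/-- germs of analytic functions as germs of functions -/
private noncomputable def elI : HG →+* Filter.Germ (atTop : Filter ℝ) ℝ := hSub.subtype

private theorem elI_hmk (f : ℝ → ℝ) (hf : EvAn f) :
    elI (hmk f hf) = (f : Filter.Germ (atTop : Filter ℝ) ℝ) := rfl

private theorem el_map {g h : ℝ → ℝ} (hg : EvAn g) (hh : EvAn h) (P : MvPolynomial (Fin 2) ℝ) :
    algebraMap HG MG (MvPolynomial.aeval ![hmk g hg, hmk h hh] P) =
      MvPolynomial.aeval ![mmk g hg, mmk h hh] P := by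
  have h1 : (IsScalarTower.toAlgHom ℝ HG MG).comp
      (MvPolynomial.aeval ![hmk g hg, hmk h hh]) = MvPolynomial.aeval ![mmk g hg, mmk h hh] := by
    refine MvPolynomial.algHom_ext fun i => ?_
    fin_cases i
    · simp [mmk]
    · simp [mmk]
  have h2 := congrArg (fun F : MvPolynomial (Fin 2) ℝ →ₐ[ℝ] MG => F P) h1
  exact h2

private theorem el_germ0 {g h : ℝ → ℝ} (hg : EvAn g) (hh : EvAn h)
    (P : MvPolynomial (Fin 2) ℝ) :
    elI (MvPolynomial.aeval ![hmk g hg, hmk h hh] P) =
      ((fun x => MvPolynomial.eval ![g x, h x] P : ℝ → ℝ) :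
        Filter.Germ (atTop : Filter ℝ) ℝ) := by
  induction P using MvPolynomial.induction_on with
  | C a =>
    rw [MvPolynomial.aeval_C, algebraMap_HG, elI_hmk]
    simp only [MvPolynomial.eval_C]
  | add p q hp hq =>
    rw [map_add, map_add, hp, hq]
    simp only [map_add]
    rfl
  | mul_X p i hp =>
    rw [map_mul, map_mul, hp, MvPolynomial.aeval_X]
    simp only [map_mul, MvPolynomial.eval_X]
    fin_cases i
    · rfl
    · rfl

private theorem el_germ {g h : ℝ → ℝ} (hg : EvAn g) (hh : EvAn h) (f : ℝ → ℝ)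
    (P : Polynomial (MvPolynomial (Fin 2) ℝ)) :
    Polynomial.eval₂ (elI.comp
      (MvPolynomial.aeval ![hmk g hg, hmk h hh] : MvPolynomial (Fin 2) ℝ →ₐ[ℝ] HG).toRingHom)
      (f : Filter.Germ (atTop : Filter ℝ) ℝ) P =
      ((fun x => Polynomial.eval₂ (MvPolynomial.eval ![g x, h x]) (f x) P : ℝ → ℝ) :
        Filter.Germ (atTop : Filter ℝ) ℝ) := by
  induction P using Polynomial.induction_on' with
  | add p q hp hq =>
    rw [Polynomial.eval₂_add, hp, hq]
    simp only [Polynomial.eval₂_add]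
    rfl
  | monomial n a =>
    rw [Polynomial.eval₂_monomial]
    simp only [Polynomial.eval₂_monomial]
    have h1 : (elI.comp
      (MvPolynomial.aeval ![hmk g hg, hmk h hh] : MvPolynomial (Fin 2) ℝ →ₐ[ℝ] HG).toRingHom) a =
        elI (MvPolynomial.aeval ![hmk g hg, hmk h hh] a) := rfl
    rw [h1, el_germ0]
    rfl

private theorem el_inj {g h : ℝ → ℝ} (hg : EvAn g) (hh : EvAn h)
    (h1 : mmk g hg ∉ acl ℝ (∅ : Set MG)) (h2 : mmk h hh ∉ acl ℝ ({mmk g hg} : Set MG)) :
    Function.Injective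
      (MvPolynomial.aeval ![hmk g hg, hmk h hh] : MvPolynomial (Fin 2) ℝ →ₐ[ℝ] HG) := by
  have h3 := (dic_two (k := ℝ) (mmk g hg) (mmk h hh) h1).2 h2
  intro a b hab
  refine h3 ?_
  change MvPolynomial.aeval ![mmk g hg, mmk h hh] a = MvPolynomial.aeval ![mmk g hg, mmk h hh] b
  rw [← el_map, ← el_map, hab]

theorem Q_el (hN : NK) : LEl := by
  intro u v hu hv huK hvK hu0 hvu f hQ
  obtain ⟨Q, hQ0, hQ⟩ := hQ
  -- the base ring
  have hN1 := (hN 1 one_pos).1
  have hee : ee 1 = mmk (fun x => Real.exp (1 * x)) (evAn_exp 1) := rfl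
  have hxx : xx = mmk (fun x => x) evAn_id := rfl
  have hinj := el_inj (evAn_exp 1) evAn_id (by rw [← hee]; exact hN1.1)
    (by rw [← hee, ← hxx]; exact hN1.2)
  let φ : MvPolynomial (Fin 2) ℝ →ₐ[ℝ] HG :=
    MvPolynomial.aeval ![hmk (fun x => Real.exp (1 * x)) (evAn_exp 1), hmk (fun x => x) evAn_id]
  let _ : Algebra (MvPolynomial (Fin 2) ℝ) HG := φ.toRingHom.toAlgebra
  let _ : Algebra HG (Filter.Germ (atTop : Filter ℝ) ℝ) := elI.toAlgebra
  let _ : Algebra (MvPolynomial (Fin 2) ℝ) (Filter.Germ (atTop : Filter ℝ) ℝ) :=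
    (elI.comp φ.toRingHom).toAlgebra
  have _ : IsScalarTower (MvPolynomial (Fin 2) ℝ) HG (Filter.Germ (atTop : Filter ℝ) ℝ) :=
    IsScalarTower.of_algebraMap_eq fun _ => rfl
  -- elements of `KF 1` are algebraic over the base ring
  have halg : ∀ (w : ℝ → ℝ) (hw : EvAn w), mmk w hw ∈ KF 1 →
      IsAlgebraic (MvPolynomial (Fin 2) ℝ) (hmk w hw) := by
    intro w hw hwK
    rw [← isAlgebraic_algebraMap_iff (A := MG) (IsFractionRing.injective HG MG)]
    change IsAlgebraic (MvPolynomial (Fin 2) ℝ) (mmk w hw)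
    obtain ⟨p, hp0, hp⟩ := mem_acl'.1 hwK
    refine el_alg (R := MvPolynomial (Fin 2) ℝ) (S := MG) (A := MG)
      (p.map (algebraMap (Algebra.adjoin ℝ ({xx, ee 1} : Set MG)) MG)) ?_ ?_ _ ?_
    · rw [Ne, Polynomial.map_eq_zero_iff (FaithfulSMul.algebraMap_injective _ _)]
      exact hp0
    · intro i
      rw [Polynomial.coeff_map]
      have h1 : (algebraMap (Algebra.adjoin ℝ ({xx, ee 1} : Set MG)) MG (p.coeff i)) ∈
          Algebra.adjoin ℝ ({xx, ee 1} : Set MG) := (p.coeff i).2
      generalize algebraMap (Algebra.adjoin ℝ ({xx, ee 1} : Set MG)) MG (p.coeff i) = z at h1 ⊢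
      have h2 : ({xx, ee 1} : Set MG) = Set.range ![ee 1, xx] := by
        rw [Matrix.range_cons, Matrix.range_cons, Matrix.range_empty, Set.union_empty,
          Set.union_comm]
        rfl
      rw [h2, Algebra.adjoin_range_eq_range_aeval] at h1
      obtain ⟨a, ha⟩ := h1
      have h3 : algebraMap (MvPolynomial (Fin 2) ℝ) MG a = MvPolynomial.aeval ![ee 1, xx] a := by
        rw [IsScalarTower.algebraMap_apply (MvPolynomial (Fin 2) ℝ) HG MG]
        exact el_map (evAn_exp 1) evAn_id a
      have h4 : MvPolynomial.aeval ![ee 1, xx] a = z := ha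
      rw [← h4, ← h3]
      exact isAlgebraic_algebraMap a
    · rw [Polynomial.aeval_map_algebraMap]
      exact hp
  have hua := halg u hu huK
  have hva := halg v hv hvK
  -- the relation of `f` over `u, v`
  have hψ := el_inj hu hv hu0 hvu
  let σ : Fin 3 → Fin 3 := ![1, 2, 0]
  have hσ : Function.Injective σ := by decide
  let P₁ : Polynomial (MvPolynomial (Fin 2) ℝ) :=
    MvPolynomial.finSuccEquiv ℝ 2 (MvPolynomial.rename σ Q)
  have hP₁ : P₁ ≠ 0 := by
    intro h
    have h1 : MvPolynomial.rename σ Q = 0 := by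
      rwa [EmbeddingLike.map_eq_zero_iff] at h
    exact hQ0 (MvPolynomial.rename_injective σ hσ (by rw [h1, map_zero]))
  let P₂ : Polynomial HG := P₁.map
    (MvPolynomial.aeval ![hmk u hu, hmk v hv] : MvPolynomial (Fin 2) ℝ →ₐ[ℝ] HG).toRingHom
  have hP₂ : P₂ ≠ 0 := by
    intro h
    exact hP₁ ((Polynomial.map_eq_zero_iff hψ).1 h)
  have hf : IsAlgebraic (MvPolynomial (Fin 2) ℝ) (f : Filter.Germ (atTop : Filter ℝ) ℝ) := by
    refine el_alg (S := HG) P₂ hP₂ ?_ _ ?_
    · intro i
      rw [Polynomial.coeff_map]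
      have h1 : ∀ a : MvPolynomial (Fin 2) ℝ, MvPolynomial.aeval ![hmk u hu, hmk v hv] a ∈
          Subalgebra.algebraicClosure (MvPolynomial (Fin 2) ℝ) HG := by
        intro a
        induction a using MvPolynomial.induction_on with
        | C r =>
          rw [MvPolynomial.aeval_C]
          have : algebraMap ℝ HG r = algebraMap (MvPolynomial (Fin 2) ℝ) HG
              (MvPolynomial.C r) := (MvPolynomial.aeval_C _ r).symm
          rw [this]
          exact isAlgebraic_algebraMap _
        | add p q hp hq =>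
          rw [map_add]
          exact add_mem hp hq
        | mul_X p i hp =>
          rw [map_mul, MvPolynomial.aeval_X]
          refine mul_mem hp ?_
          fin_cases i
          · exact hua
          · exact hva
      exact h1 _
    · have h1 : Polynomial.aeval (f : Filter.Germ (atTop : Filter ℝ) ℝ) P₂ =
          Polynomial.eval₂ (elI.comp
            (MvPolynomial.aeval ![hmk u hu, hmk v hv] :
              MvPolynomial (Fin 2) ℝ →ₐ[ℝ] HG).toRingHom)
            (f : Filter.Germ (atTop : Filter ℝ) ℝ) P₁ := by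
        rw [Polynomial.aeval_def, Polynomial.eval₂_map]
        rfl
      rw [h1, el_germ, ← Filter.Germ.coe_zero, Filter.Germ.coe_eq]
      filter_upwards [hQ] with x hx
      have h2 := MvPolynomial.eval_eq_eval_mv_eval' ![u x, v x] (f x) (MvPolynomial.rename σ Q)
      rw [Polynomial.eval_map] at h2
      rw [← h2, MvPolynomial.eval_rename]
      have h3 : (Fin.cons (f x) ![u x, v x] : Fin 3 → ℝ) ∘ σ = ![u x, v x, f x] := by
        funext i
        fin_cases i
        · rfl
        · rfl
        · rfl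
      rw [h3]
      exact hx
  -- back
  obtain ⟨p, hp0, hp⟩ := hf
  let ρ : Fin 3 → Fin 3 := ![2, 1, 0]
  have hρ : Function.Injective ρ := by decide
  refine ⟨MvPolynomial.rename ρ ((MvPolynomial.finSuccEquiv ℝ 2).symm p), ?_, ?_⟩
  · intro h
    have h1 := MvPolynomial.rename_injective ρ hρ (h.trans (map_zero _).symm)
    rw [EmbeddingLike.map_eq_zero_iff] at h1
    exact hp0 h1
  · have h1 : Polynomial.eval₂ (elI.comp φ.toRingHom)
        (f : Filter.Germ (atTop : Filter ℝ) ℝ) p = 0 := hp
    rw [el_germ, ← Filter.Germ.coe_zero, Filter.Germ.coe_eq] at h1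
    filter_upwards [h1] with x hx
    have h2 := MvPolynomial.eval_eq_eval_mv_eval' ![Real.exp (1 * x), x] (f x)
      ((MvPolynomial.finSuccEquiv ℝ 2).symm p)
    rw [Polynomial.eval_map, AlgEquiv.apply_symm_apply] at h2
    rw [MvPolynomial.aeval_rename]
    have h3 : (![x, Real.exp (1 * x), f x] : Fin 3 → ℝ) ∘ ρ =
        Fin.cons (f x) ![Real.exp (1 * x), x] := by
      funext i
      fin_cases i
      · rfl
      · rfl
      · rfl
    rw [h3]
    exact h2.trans hx

end MP52exp
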