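import Pool.Agent.Lib.MP_52aaf2_al.LX.Stm

set_option autoImplicit false

/-!
# MP_52aaf2_al, project LX, piece nf: `LNf` (helper7)
-/

open Filter Topology
open MP52aaf2 (GermGroup germ alpha FreePair germ_eq_iff germ_mul germ_inv oi_mul_apply
  oi_inv_apply tendsto_oi)

namespace MP52exp

private theorem nf_inv {a b : GermGroup} (h : FreePair a b) : FreePair a b⁻¹ := by
  let φ : FreeGroup (Fin 2) →* FreeGroup (Fin 2) :=
    FreeGroup.lift ![FreeGroup.of 0, (FreeGroup.of 1)⁻¹]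
  have h1 : (FreeGroup.lift ![a, b]).comp φ = FreeGroup.lift ![a, b⁻¹] := by
    ext i
    fin_cases i <;> simp [φ]
  have h2 : φ.comp φ = MonoidHom.id _ := by
    ext i
    fin_cases i <;> simp [φ]
  have h3 : Function.Injective φ := by
    intro x y hxy
    have h4 : φ (φ x) = φ (φ y) := congrArg φ hxy
    have h5 : ∀ z, φ (φ z) = z := fun z => DFunLike.congr_fun h2 z
    rwa [h5, h5] at h4
  unfold FreePair
  rw [← h1, MonoidHom.coe_comp]
  exact Function.Injective.comp h h3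

private theorem nf_word (a b : GermGroup)
    (h : a * (b⁻¹ * a * b * a * (b⁻¹ * a * b)⁻¹) = b⁻¹ * a * b * a * (b⁻¹ * a * b)⁻¹ * a) :
    ¬ FreePair a b := by
  intro hF
  let u : FreeGroup (Fin 2) := FreeGroup.of 0
  let v : FreeGroup (Fin 2) := FreeGroup.of 1
  have h1 : u * (v⁻¹ * u * v * u * (v⁻¹ * u * v)⁻¹) =
      v⁻¹ * u * v * u * (v⁻¹ * u * v)⁻¹ * u := by
    apply hF
    simp only [map_mul, map_inv]
    have hu : FreeGroup.lift ![a, b] u = a := by simp [u]
    have hv : FreeGroup.lift ![a, b] v = b := by simp [v]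
    rw [hu, hv]
    exact h
  let σ : Equiv.Perm (Fin 3) := Equiv.swap 0 1
  let τ : Equiv.Perm (Fin 3) := Equiv.swap 1 2
  have h2 := congrArg (FreeGroup.lift ![σ, τ]) h1
  simp only [map_mul, map_inv] at h2
  have hu : FreeGroup.lift ![σ, τ] u = σ := by simp [u]
  have hv : FreeGroup.lift ![σ, τ] v = τ := by simp [v]
  rw [hu, hv] at h2
  revert h2
  decide

private theorem nf_pos {β : ℝ ≃o ℝ} {a c : ℝ} (h : ∀ᶠ x in atTop, β x = a * Real.log x + c) :
    0 < a := by
  by_contra ha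
  push Not at ha
  have h1 := (tendsto_oi β).eventually (eventually_gt_atTop c)
  obtain ⟨x, hx, hx1, hx2⟩ := (h.and (h1.and (eventually_ge_atTop (1 : ℝ)))).exists
  rw [hx] at hx1
  have h2 := Real.log_nonneg hx2
  nlinarith

theorem Q_nf : LNf := by
  refine ⟨fun β a c h => ?_, fun a b => ⟨nf_inv, fun h => by simpa using nf_inv h⟩⟩
  have ha := nf_pos h
  set l : ℝ := Real.exp a⁻¹ with hl
  have hl0 : 0 < l := Real.exp_pos _
  set τ : ℝ ≃o ℝ := OrderIso.addRight (1 : ℝ) with hτ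
  have hτx : ∀ x : ℝ, τ x = x + 1 := fun x => rfl
  set G : ℝ ≃o ℝ := β⁻¹ * τ * β with hG
  have hGx : ∀ᶠ x in atTop, G x = l * x := by
    have h1 : Tendsto (fun x : ℝ => l * x) atTop atTop := tendsto_id.const_mul_atTop hl0
    filter_upwards [h, h1.eventually h, eventually_gt_atTop (0 : ℝ)] with x hx hx1 hx0
    rw [hG, oi_mul_apply, oi_mul_apply, hτx, oi_inv_apply, OrderIso.symm_apply_eq, hx, hx1,
      Real.log_mul hl0.ne' hx0.ne', hl, Real.log_exp]
    field_simp
    ring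
  have hGi : ∀ᶠ x in atTop, G⁻¹ x = l⁻¹ * x := by
    have h1 : Tendsto (fun x : ℝ => l⁻¹ * x) atTop atTop :=
      tendsto_id.const_mul_atTop (inv_pos.2 hl0)
    filter_upwards [h1.eventually hGx] with x hx
    rw [oi_inv_apply, OrderIso.symm_apply_eq, hx, mul_inv_cancel_left₀ hl0.ne']
  have hC : ∀ᶠ x in atTop, (G * τ * G⁻¹) x = x + l := by
    have h1 : Tendsto (fun x : ℝ => l⁻¹ * x + 1) atTop atTop :=
      tendsto_atTop_add_const_right _ _ (tendsto_id.const_mul_atTop (inv_pos.2 hl0))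
    filter_upwards [hGi, h1.eventually hGx] with x hx hx1
    rw [oi_mul_apply, oi_mul_apply, hx, hτx, hx1]
    field_simp
  apply nf_word
  have e1 : alpha = germ τ := rfl
  rw [e1]
  simp only [germ_inv, germ_mul]
  rw [← hG, germ_eq_iff]
  filter_upwards [hC, (tendsto_oi τ).eventually hC] with x hx hx1
  rw [oi_mul_apply, hx, oi_mul_apply (G * τ * G⁻¹) τ, hx1, hτx, hτx]
  ring

end MP52exp
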