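import Pool.Agent.Lib.MP_52aaf2_al.LX.Defs

/-!
# MP_52aaf2_al, project LX: statements

Notation in the proofs: `D₁ = DD S b`, `D₂ = DD S (!b)`, `w = D₁ Z`, `P₁ = D₁ P`, `P₂ = D₂ P`,
`μ = P₁ / P₂` (`muL S b P`), `τ₁ = tau S b y δ`, `τ₂ = tau S (!b) y δ`. The statements of project
EX (`Trn, Dst, Der1, Mat1, LemD, Jac, MuN, LemL, GR, R1, Cr, ExpC, ...`) may be used as
hypotheses of the pieces (files EX/StmG, StmS, StmA).
-/

open Polynomial IntermediateField Filter Topology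

open MP52aaf2 (GermGroup germ alpha FreePair IsAlgGerm IsAlgFun)

namespace MP52exp

/-! ### algebra -/

/-- **(LCom)** `∂/∂X` and `E ∂/∂E` commute. Proof: the bracket `⁅S.DX, S.DE⁆` is a derivation of `K`
over `ℝ` that kills `X` and `E` (`DX X = 1`, `DE E = E`, ...), hence `K` (`Dst` with
`S = {X, E}`, `S.span`); then `b = true, false`. -/
def LCom : Prop := ∀ (K M : Type) [Field K] [Field M] [Algebra ℝ K] [Algebra ℝ M] (S : Sys K M)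
  (b : Bool) (h : K), DD S b (DD S (!b) h) = DD S (!b) (DD S b h)

/-- **(LFac)** Facts on `DD` and `VV`. Proof: `b = true` and `b = false` separately, from `Jac`
((1) with `P := X` or `E`: `h ∈ acl {X} ↔ DX h * 0 = DE h * 1`, `h ∈ acl {E} ↔ DX h * E = DE h * 0`)
and `Dst`; the last claim is `LemL` for `b = false` (`DE (DE h) = 0` because `DE` kills
`acl ∅`). -/
def LFac : Prop := ∀ (K M : Type) [Field K] [Field M] [Algebra ℝ K] [Algebra ℝ M] (S : Sys K M)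
  (b : Bool),
  VV S b ∉ acl ℝ (∅ : Set K) ∧ VV S (!b) ∉ acl ℝ ({VV S b} : Set K) ∧
  (∀ h : K, DD S (!b) h = 0 ↔ h ∈ acl ℝ ({VV S b} : Set K)) ∧
  (∀ h ∈ acl ℝ ({VV S b} : Set K), DD S b h ∈ acl ℝ ({VV S b} : Set K)) ∧
  (∀ P h : K, P ∉ acl ℝ (∅ : Set K) → (h ∈ acl ℝ ({P} : Set K) ↔
    DD S b h * DD S (!b) P = DD S (!b) h * DD S b P)) ∧
  (∀ h ∈ acl ℝ (∅ : Set K), DD S b h = 0) ∧
  (b = false → ∀ h : K, DD S b h ∈ acl ℝ (∅ : Set K) → DD S b h = 0)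

/-- **(LGn)** Consequences of `LGen`. Proof: `LFac`; `Z ∉ acl ∅` because `DD b` kills `acl ∅` and
`DD b Z ≠ 0`; so `acl {Z} = acl {VV b}` (exchange), `DD (!b) Z = 0`. If `P ∈ acl {Z} = acl {VV b}`
then `DD (!b) P = 0`. `Z ∉ acl {P}` by exchange (`P ∉ acl ∅`). The last claim is `MuN`: for
`b = true` `muL S b P = mu S P`, for `b = false` it is `(mu S P)⁻¹`. -/
def LGn : Prop := ∀ (K M : Type) [Field K] [Field M] [Algebra ℝ K] [Algebra ℝ M] (S : Sys K M)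
  (b : Bool) (Z P : K), LGen S b Z P →
  (Z ∉ acl ℝ (∅ : Set K) ∧ P ∉ acl ℝ (∅ : Set K) ∧ P ∉ acl ℝ ({Z} : Set K) ∧
    Z ∉ acl ℝ ({P} : Set K)) ∧
  acl ℝ ({Z} : Set K) = acl ℝ ({VV S b} : Set K) ∧ DD S (!b) Z = 0 ∧
  DD S b Z ∈ acl ℝ ({Z} : Set K) ∧ DD S b Z ≠ 0 ∧ muL S b P ∉ acl ℝ ({P} : Set K)

/-- **(LCh)** The chain rule, and its consequences at a point. Proof: the first claim is `Cr`
(for `b = false` exchange the two terms). By it `δ (y Z) = y w τ₁` (as `D₂ Z = 0`, `LGn`) and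
`δ (y P) = y P₁ τ₁ + y P₂ τ₂`, with `y w, y P₂ ≠ 0`; solve these linear equations. -/
def LCh : Prop := ∀ (K M : Type) [Field K] [Field M] [Algebra ℝ K] [Algebra ℝ M] (S : Sys K M)
  (b : Bool) (y : K →ₐ[ℝ] M) (δ : Derivation ℝ M M),
  (∀ h : K, δ (y h) = y (DD S b h) * tau S b y δ + y (DD S (!b) h) * tau S (!b) y δ) ∧
  ∀ Z P : K, LGen S b Z P →
    (δ (y Z) = y (DD S b Z) * tau S b y δ) ∧
    (δ (y P) = 0 → tau S (!b) y δ = - (y (muL S b P) * tau S b y δ)) ∧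
    (δ (y Z) = 1 → δ (y P) = 0 → tau S b y δ = (y (DD S b Z))⁻¹) ∧
    (δ (y Z) = 0 → δ (y P) = 1 → tau S b y δ = 0 ∧ tau S (!b) y δ = (y (DD S (!b) P))⁻¹)

/-- **(LRel)** An integer relation between the `y_j X` (modulo constants) is also one between the
`tau`. Proof: for `b = true` apply `δ`. For `b = false`: `Π = ∏_j (y_j E)^{m_j}` satisfies
`D Π / Π = ∑ m_j D (y_j E) / y_j E = λ ∑ m_j D (y_j X) = 0` (`logD_prod`, `pt_log`, `D_int` in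
EX/Asm), so it is a real constant (`S.const`), and `0 = δ Π / Π = ∑ m_j δ (y_j E) / y_j E`
(`logD_prod` again). -/
def LRel : Prop := ∀ (K M : Type) [Field K] [Field M] [Algebra ℝ K] [Algebra ℝ M] (S : Sys K M)
  (r : ℕ) (y : ℕ → (K →ₐ[ℝ] M)), (∀ j < r, y j ∈ S.Pt) → ∀ m : ℕ → ℤ,
  (∃ c : ℝ, ∑ j ∈ Finset.range r, (m j : M) * y j S.X = algebraMap ℝ M c) →
  ∀ (b : Bool) (δ : Derivation ℝ M M), ∑ j ∈ Finset.range r, (m j : M) * tau S b (y j) δ = 0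

/-- **(LPre)** The chain of a word is a `PreChain`. Proof: `inL, outL` are `Z, P` or `P, Z`;
`Z ∉ acl {P}` by exchange (`P ∉ acl ∅` as `P ∉ acl {Z}`). The links: `u + n` and `u` generate the
same field. -/
def LPre : Prop := ∀ (K M : Type) [Field K] [Field M] [Algebra ℝ K] [Algebra ℝ M] (S : Sys K M)
  (Z P : K), Z ∉ acl ℝ (∅ : Set K) → P ∉ acl ℝ ({Z} : Set K) →
  ∀ (r : ℕ) (y : ℕ → (K →ₐ[ℝ] M)) (t : ℕ → Bool) (n : ℕ → ℤ), LChain S Z P r y t n →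
  PreChain S r y (fun j => inL Z P (t j)) (fun j => outL Z P (t j))

/-- **(LDer)** Dual derivations. Proof: let `v_0 = y_0 (in)`, `v_{i+1} = y_i (out)`, `i < r`. By
`GR` (with `LPre`) the rank of `gens S y 0 r` is `r + 1`, and `gens S y 0 r ⊆ acl {v_0, …, v_r}`:
`K = acl {Z, P}` (rank 2, `Jac`), so `y_l K ⊆ acl {y_l (in), y_l (out)}` (`Trn`), and
`y_l (in) = v_l + n` for `l ≥ 1`. So `v_k ∉ acl V`, `V = {v_i | i ≤ r, i ≠ k}` (otherwise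
`r + 1 = rk ≤ rk V ≤ r`), and `Der1` gives a derivation `δ` killing `acl V` with `δ v_k = 1`.
It kills `y_l K` for `l ≠ k`, `l + 1 ≠ k`; for `l + 1 = k`, `δ (y_l (in)) = 0` and
`δ (y_l (out)) = δ v_k = 1`; for `l = k`, `δ (y_l (in)) = δ (v_k + n) = 1` (or `δ v_0 = 1`) and
`δ (y_l (out)) = δ v_{k+1} = 0`. -/
def LDer : Prop := ∀ (K M : Type) [Field K] [Field M] [Algebra ℝ K] [Algebra ℝ M] (S : Sys K M)
  (Z P : K), Z ∉ acl ℝ (∅ : Set K) → P ∉ acl ℝ ({Z} : Set K) →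
  ∀ (r : ℕ) (y : ℕ → (K →ₐ[ℝ] M)) (t : ℕ → Bool) (n : ℕ → ℤ), LChain S Z P r y t n →
  QInd S r y → 1 ≤ r → ∀ k ≤ r, ∃ δ : Derivation ℝ M M,
  (∀ l < r, l ≠ k → l + 1 ≠ k → ∀ h, δ (y l h) = 0) ∧
  (∀ l < r, l + 1 = k → δ (y l (inL Z P (t l))) = 0 ∧ δ (y l (outL Z P (t l))) = 1) ∧
  (∀ l < r, l = k → δ (y l (inL Z P (t l))) = 1 ∧ δ (y l (outL Z P (t l))) = 0)

/-- **(LKey)** The key equations (assembly: `LDer` for the first `r` points, the link to the last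
point, `LRel`). -/
def LKey : Prop := ∀ (K M : Type) [Field K] [Field M] [Algebra ℝ K] [Algebra ℝ M] (S : Sys K M)
  (b : Bool) (Z P : K), LGen S b Z P →
  ∀ (r : ℕ) (y : ℕ → (K →ₐ[ℝ] M)) (t : ℕ → Bool) (n : ℕ → ℤ), LChain S Z P (r + 1) y t n →
  QInd S r y → 1 ≤ r → ∀ m : ℕ → ℤ,
  (∃ c : ℝ, ∑ j ∈ Finset.range (r + 1), (m j : M) * y j S.X = algebraMap ℝ M c) →
  ∀ k ≤ r, ∃ δ : Derivation ℝ M M,
  (∀ l < r, l ≠ k → l + 1 ≠ k → ∀ h, δ (y l h) = 0) ∧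
  (∀ l < r, l + 1 = k → δ (y l (inL Z P (t l))) = 0 ∧ δ (y l (outL Z P (t l))) = 1) ∧
  (∀ l < r, l = k → δ (y l (inL Z P (t l))) = 1 ∧ δ (y l (outL Z P (t l))) = 0) ∧
  (k < r → δ (y r (inL Z P (t r))) = 0) ∧ (k = r → δ (y r (inL Z P (t r))) = 1) ∧
  ∀ c : Bool, (if 1 ≤ k then (m (k - 1) : M) * tau S c (y (k - 1)) δ else 0) +
    (if k < r then (m k : M) * tau S c (y k) δ else 0) + (m r : M) * tau S c (y r) δ = 0

/-- **(LNb)** Neighbours of type `β⁻¹, β`: if `z Z = y Z + n`, `n ≠ 0`, then `z w` is not a rational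
multiple of `y w` (`w = D₁ Z`). Proof: `LemD` over `ℝ` with `p = Z`, `b = w` (`LGn`:
`w ∈ acl {Z}`, `Z ∉ acl ∅`; `q ≠ 0` because `z w ≠ 0`) shows that `w` is algebraic over `ℝ`,
contradicting `LGen.hw`. -/
def LNb : Prop := ∀ (K M : Type) [Field K] [Field M] [Algebra ℝ K] [Algebra ℝ M] (S : Sys K M)
  (b : Bool) (Z P : K), LGen S b Z P → ∀ (y z : K →ₐ[ℝ] M) (n m m' : ℤ), n ≠ 0 → m ≠ 0 →
  z Z = y Z + (n : M) → (m : M) * (y (DD S b Z))⁻¹ + (m' : M) * (z (DD S b Z))⁻¹ = 0 → False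

/-- **(LCasP)** The new point is of type `β`.
Proof: `D₁ = DD S b`, `w = D₁ Z`; the incoming element of the last point is `Z`. (1) `LKey` with
`k = 0 < r`: `0 = δ (y_r Z) = y_r w τ₁(y_r)` (`LCh`), so `τ₁(y_r) = 0`, and the key equation for
`c = b` is `m_0 τ₁(y_0) = 0`, `τ₁(y_0) = 0`. If `t 0 = true` then `δ (y_0 Z) = 1`,
`δ (y_0 P) = 0`, `τ₁(y_0) = (y_0 w)⁻¹ ≠ 0`, contradiction. So `t 0 = false`. (2) `LKey` with
`k = 1`: `δ (y_0 P) = 0`, `δ (y_0 Z) = 1` (incoming `P`, outgoing `Z`), `τ₁(y_0) = (y_0 w)⁻¹`. If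
`r = 1`: `δ (y_1 Z) = 1 = y_1 w τ₁(y_1)`, and the key equation is
`m_0 (y_0 w)⁻¹ + m_1 (y_1 w)⁻¹ = 0`. The link is `y_1 Z = y_0 Z + n_0`, `n_0 ≠ 0` as
`t 0 ≠ t 1`: contradiction to `LNb`. If `r ≥ 2`: `τ₁(y_r) = 0` as in (1), and the key equation is
`m_0 (y_0 w)⁻¹ + m_1 τ₁(y_1) = 0`. If `t 1 = false` then `δ (y_1 P) = 1`, `δ (y_1 Z) = 0`,
`τ₁(y_1) = 0`, so `m_0 = 0`, contradiction. If `t 1 = true` then `δ (y_1 Z) = 1`,
`δ (y_1 P) = 0`, `τ₁(y_1) = (y_1 w)⁻¹`: contradiction to `LNb` as before. -/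
def LCasP : Prop := ∀ (K M : Type) [Field K] [Field M] [Algebra ℝ K] [Algebra ℝ M] (S : Sys K M)
  (b : Bool) (Z P : K), LGen S b Z P →
  ∀ (r : ℕ) (y : ℕ → (K →ₐ[ℝ] M)) (t : ℕ → Bool) (n : ℕ → ℤ), LChain S Z P (r + 1) y t n →
  QInd S r y → 1 ≤ r → t r = true → ∀ m : ℕ → ℤ, m 0 ≠ 0 → m r ≠ 0 →
  (∃ c : ℝ, ∑ j ∈ Finset.range (r + 1), (m j : M) * y j S.X = algebraMap ℝ M c) → False

/-- **(LMu)** The new point is of type `β⁻¹`: the first one is of type `β`, and `y_r μ = y_0 μ`.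
Proof: `LKey` with `k = 0 < r`: `δ (y_r P) = 0`, so `τ₂(y_r) = - y_r μ τ₁(y_r)` (`LCh`); the key
equations are `m_0 τ_i(y_0) + m_r τ_i(y_r) = 0`, `i = 1, 2`, so
`τ₂(y_0) = - y_r μ τ₁(y_0)` (multiply by `m_0 ≠ 0`). If `t 0 = false` then `δ (y_0 P) = 1`,
`δ (y_0 Z) = 0`, `τ₁(y_0) = 0`, `τ₂(y_0) = (y_0 P₂)⁻¹ ≠ 0`, contradiction. If `t 0 = true` then
`δ (y_0 Z) = 1`, `δ (y_0 P) = 0`, `τ₁(y_0) = (y_0 w)⁻¹ ≠ 0`, `τ₂(y_0) = - y_0 μ τ₁(y_0)`. -/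
def LMu : Prop := ∀ (K M : Type) [Field K] [Field M] [Algebra ℝ K] [Algebra ℝ M] (S : Sys K M)
  (b : Bool) (Z P : K), LGen S b Z P →
  ∀ (r : ℕ) (y : ℕ → (K →ₐ[ℝ] M)) (t : ℕ → Bool) (n : ℕ → ℤ), LChain S Z P (r + 1) y t n →
  QInd S r y → 1 ≤ r → t r = false → ∀ m : ℕ → ℤ, m 0 ≠ 0 → m r ≠ 0 →
  (∃ c : ℝ, ∑ j ∈ Finset.range (r + 1), (m j : M) * y j S.X = algebraMap ℝ M c) →
  t 0 = true ∧ y r (muL S b P) = y 0 (muL S b P)

/-- **(LM2)** The new point is of type `β⁻¹` and the second one of type `β`: contradiction.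
Proof: `t 0 = true`, `y_r μ = y_0 μ` by `LMu`. `LKey` with `k = 1 < r`: `δ (y_0 Z) = 0`,
`δ (y_0 P) = 1`: `τ₁(y_0) = 0`, `τ₂(y_0) = (y_0 P₂)⁻¹`; `δ (y_1 Z) = 1`, `δ (y_1 P) = 0`:
`τ₁(y_1) = (y_1 w)⁻¹`, `τ₂(y_1) = - y_1 μ (y_1 w)⁻¹`; `δ (y_r P) = 0`:
`τ₂(y_r) = - y_0 μ τ₁(y_r)`. The key equations give
`m_0 (y_0 P₂)⁻¹ = m_1 (y_1 μ - y_0 μ) (y_1 w)⁻¹` (*), so `m_1 ≠ 0` and
`y_1 μ = y_0 μ + (m_0 / m_1) y_1 w (y_0 P₂)⁻¹`. As `w ∈ acl {Z}` and `y_1 Z = y_0 P + n_0`, this is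
in `acl (gens 0 1)`, and it is in `acl (gens 1 r)`, so by `R1` (with `m = 1`, `LPre`)
`y_1 μ ∈ acl {y_0 P} = acl {y_1 Z}` and `μ ∈ acl {Z}` (`Trn`), so `D₂ μ = 0` (`LFac`, `LGn`:
`acl {Z} = acl {VV b}`). As `μ P₂ = P₁`, `μ D₂ P₂ = D₂ P₁ = D₁ P₂` (`LCom`), so
`D₁ P₂ * P₂ = D₂ P₂ * P₁` and `P₂ ∈ acl {P}` (`LFac`). Now `y_1 μ, y_1 w, y_0 P₂` are in
`acl {y_0 P}`, so by (*) `y_0 μ ∈ acl {y_0 P}`, `μ ∈ acl {P}` (`Trn`), contradicting `LGn`. -/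
def LM2 : Prop := ∀ (K M : Type) [Field K] [Field M] [Algebra ℝ K] [Algebra ℝ M] (S : Sys K M)
  (b : Bool) (Z P : K), LGen S b Z P →
  ∀ (r : ℕ) (y : ℕ → (K →ₐ[ℝ] M)) (t : ℕ → Bool) (n : ℕ → ℤ), LChain S Z P (r + 1) y t n →
  QInd S r y → 2 ≤ r → t r = false → t 1 = true → ∀ m : ℕ → ℤ, m 0 ≠ 0 → m r ≠ 0 →
  (∃ c : ℝ, ∑ j ∈ Finset.range (r + 1), (m j : M) * y j S.X = algebraMap ℝ M c) → False

/-- **(LM3)** The new point and the second one are of type `β⁻¹`: `P₂` is a constant.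
Proof: `t 0 = true` by `LMu`. `LKey` with `k = 1 < r`: `δ (y_0 Z) = 0`, `δ (y_0 P) = 1`:
`τ₁(y_0) = 0`, `τ₂(y_0) = (y_0 P₂)⁻¹`; `δ (y_1 P) = 1`, `δ (y_1 Z) = 0`: `τ₁(y_1) = 0`,
`τ₂(y_1) = (y_1 P₂)⁻¹`; `δ (y_r P) = 0`, `τ₂(y_r) = - y_r μ τ₁(y_r)`. The key equation for `c = b`
gives `τ₁(y_r) = 0`, so `τ₂(y_r) = 0`, and for `c = !b` it is
`m_0 (y_0 P₂)⁻¹ + m_1 (y_1 P₂)⁻¹ = 0`. So `m_1 ≠ 0`, `y_1 P₂ = - (m_1 / m_0) y_0 P₂` is in
`acl (gens 0 1)` and in `acl (gens 1 r)`, so by `R1` (`m = 1`, `LPre`) in `acl {y_0 P}`, and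
`P₂ ∈ acl {P}` (`Trn`, `y_0`). The link is `y_1 P = y_0 P + n_0`, `n_0 ≠ 0`, so by `LemD` `P₂` is
algebraic over `ℝ`. Then `y_0 P₂` is killed by `S.D` (`Dst`), so it is a real number `g`
(`S.const`), `P₂ = g` because `y_0` is injective, `g ≠ 0`. -/
def LM3 : Prop := ∀ (K M : Type) [Field K] [Field M] [Algebra ℝ K] [Algebra ℝ M] (S : Sys K M)
  (b : Bool) (Z P : K), LGen S b Z P →
  ∀ (r : ℕ) (y : ℕ → (K →ₐ[ℝ] M)) (t : ℕ → Bool) (n : ℕ → ℤ), LChain S Z P (r + 1) y t n →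
  QInd S r y → 2 ≤ r → t r = false → t 1 = false → ∀ m : ℕ → ℤ, m 0 ≠ 0 → m r ≠ 0 →
  (∃ c : ℝ, ∑ j ∈ Finset.range (r + 1), (m j : M) * y j S.X = algebraMap ℝ M c) →
  m 1 ≠ 0 ∧ ∃ g : ℝ, g ≠ 0 ∧ DD S (!b) P = algebraMap ℝ K g

/-- **(LM4)** The conclusion of `LM3` is impossible.
Proof: if `b = true`: `D₂ = DE`, `DE P = g`, so `DE (DE P) = 0` and `LemL` (or the last claim of
`LFac`) gives `DE P = 0`, contradiction. If `b = false`: `D₂ = DX`, `D₁ = DE`, `DX P = g`.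
`DX P₁ = DE (DX P) = 0` (`LCom`), so `P₁ ∈ acl {E} = acl {VV b} = acl {Z}` (`LFac`, `LGn`), and
`P₁ ∉ acl ∅` (last claim of `LFac`, `P₁ ≠ 0`), so `Z ∈ acl {P₁}` (exchange). By `LMu`
`y_r μ = y_0 μ`, `μ = P₁ / g`, so `y_r P₁ = y_0 P₁`, and
`y_r Z ∈ acl {y_r P₁} = acl {y_0 P₁} ⊆ acl (gens 0 1)`. `LKey` with `k = 2 ≤ r`: `δ` kills `y_0 K`,
hence `acl (gens 0 1)` (`Dst`), so `0 = δ (y_r Z) = y_r w τ₁(y_r)`, `τ₁(y_r) = 0`.
`δ (y_1 P) = 0`, `δ (y_1 Z) = 1` (`t 1 = false`): `τ₁(y_1) = (y_1 w)⁻¹`. If `r = 2` the key equation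
is `m_1 (y_1 w)⁻¹ = 0`, contradiction to `m_1 ≠ 0`. If `r ≥ 3` it is
`m_1 (y_1 w)⁻¹ + m_2 τ₁(y_2) = 0`; if `t 2 = false` then `δ (y_2 P) = 1`, `δ (y_2 Z) = 0`,
`τ₁(y_2) = 0`, contradiction; if `t 2 = true` then `δ (y_2 Z) = 1`, `δ (y_2 P) = 0`,
`τ₁(y_2) = (y_2 w)⁻¹`, and the link is `y_2 Z = y_1 Z + n_1`, `n_1 ≠ 0`: contradiction to
`LNb`. -/
def LM4 : Prop := ∀ (K M : Type) [Field K] [Field M] [Algebra ℝ K] [Algebra ℝ M] (S : Sys K M)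
  (b : Bool) (Z P : K), LGen S b Z P →
  ∀ (r : ℕ) (y : ℕ → (K →ₐ[ℝ] M)) (t : ℕ → Bool) (n : ℕ → ℤ), LChain S Z P (r + 1) y t n →
  QInd S r y → 2 ≤ r → t r = false → t 1 = false → ∀ m : ℕ → ℤ, m 0 ≠ 0 → m r ≠ 0 → m 1 ≠ 0 →
  (∃ c : ℝ, ∑ j ∈ Finset.range (r + 1), (m j : M) * y j S.X = algebraMap ℝ M c) →
  ∀ g : ℝ, g ≠ 0 → DD S (!b) P = algebraMap ℝ K g → False

/-- **(LInd)** All chains are independent (assembly). -/
def LInd : Prop := ∀ (K M : Type) [Field K] [Field M] [Algebra ℝ K] [Algebra ℝ M] (S : Sys K M)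
  (b : Bool) (Z P : K), LGen S b Z P →
  ∀ (r : ℕ) (y : ℕ → (K →ₐ[ℝ] M)) (t : ℕ → Bool) (n : ℕ → ℤ), LChain S Z P r y t n → QInd S r y

/-- **(LDgN)** Two points related by `z A = y A + n` for a nonlinear function `A` of `X` or of `E`
are independent. Proof: let `m₁ y X + m₂ z X = c`. If one of `m₁, m₂` is zero, so is the other one
(apply `S.D`, `S.pt_ne`). Otherwise: `A ∉ acl ∅` (its derivative is not zero, `LFac`), so
`y A ∉ acl ∅` (`Trn`), and `Der1` gives `δ` with `δ (y A) = 1`, so `δ (z A) = 1`. As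
`DD (!c') A = 0`, `Cr` gives `y A' τ(y) = 1`, `z A' τ(z) = 1`, `A' = DD c' A`, `τ = tau c'`; and
`m₁ τ(y) + m₂ τ(z) = 0` by `LRel` (two points; use `fun j => if j = 0 then y else z`). So
`z A' = - (m₂ / m₁) y A'`, and `A' ∈ acl {A}` (`LFac` and exchange): by `LemD` `A'` is algebraic
over `ℝ`, contradiction. -/
def LDgN : Prop := ∀ (K M : Type) [Field K] [Field M] [Algebra ℝ K] [Algebra ℝ M] (S : Sys K M)
  (b : Bool) (A : K), A ∈ acl ℝ ({VV S b} : Set K) → DD S b A ∉ acl ℝ (∅ : Set K) →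
  ∀ y ∈ S.Pt, ∀ z ∈ S.Pt, ∀ n : ℤ, n ≠ 0 → z A = y A + (n : M) → ∀ (m₁ m₂ : ℤ) (c : ℝ),
  (m₁ : M) * y S.X + (m₂ : M) * z S.X = algebraMap ℝ M c → m₁ = 0 ∧ m₂ = 0

/-- **(LDgI)** In the degenerate case chains are independent, and `Z, P` are independent.
Proof: `acl {Z} = acl {VV b}` and `acl {P} = acl {VV (!b)}` (both are not algebraic over `ℝ`
because their derivatives are not zero; exchange, `LFac`). `ExpC` with `ε j = (t j == b)`: the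
incoming element of `y_j` is algebraically equivalent to `y_j X` iff `ε j = true`. Neighbours with
`ε j ≠ ε (j+1)` have `t j ≠ t (j+1)`, so `n j ≠ 0`, and the link is
`y_{j+1} A = y_j A + n_j` with `A = P` (if `t j = true`) or `A = Z`: `LDgN`. -/
def LDgI : Prop := ∀ (K M : Type) [Field K] [Field M] [Algebra ℝ K] [Algebra ℝ M] (S : Sys K M)
  (b : Bool) (Z P : K), LDeg S b Z P →
  (Z ∉ acl ℝ (∅ : Set K) ∧ P ∉ acl ℝ ({Z} : Set K)) ∧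
  ∀ (r : ℕ) (y : ℕ → (K →ₐ[ℝ] M)) (t : ℕ → Bool) (n : ℕ → ℤ), LChain S Z P r y t n → QInd S r y

/-! ### words and functions -/

/-- **(LWb)** From chains to freeness (a copy of `P_wb` in EX/P_wb.lean, simpler: no type `mp`).
Proof: `Wa` for `a = alpha`, `b = germ β`, and: `sp g` (resp. `sm g`): there are a
representative `f ∈ AnG` of `g`, an integer `n₀`, and a chain (`LChain S Z P r y t n`, `r ≥ 1`) with
`t (r-1) = true` (resp. `false`), `mmk f = y (r-1) (outL (t (r-1)))` and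
`y 0 (inL (t 0)) = mmk (x + n₀)`. Steps: `b` after `a ^ n`: add the point of `T ∘ (f + n)`
(`RealSys.pt`), type `true`: its incoming element is `T⁻¹ (T (f + n)) = f + n`, its outgoing
element is `β (T⁻¹ (T (f + n))) = β (f + n)`. `b⁻¹` after `a ^ n`: add the point of
`T ∘ β⁻¹ ∘ (f + n)`, type `false`: incoming `β (T⁻¹ T β⁻¹ (f + n)) = f + n`, outgoing
`β⁻¹ (f + n)`. Last assumption: if `a ^ n * g = 1` then `f = x - n`, and
`y 0 (inL) = mmk (x + n₀)` is algebraic over `y (r-1) (outL) = mmk f`, excluded by assumption. -/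
def LWb : Prop := ∀ (lam : ℝ) (S : Sys (KF lam) MG), RealSys lam S → ∀ (T β : ℝ ≃o ℝ)
  (_ : T ∈ AnG) (_ : β ∈ AnG) (Z P : KF lam) (hZ : EvAn fun x => T.symm x)
  (hP : EvAn fun x => β (T.symm x)), (Z : MG) = mmk _ hZ → (P : MG) = mmk _ hP →
  (∀ (r : ℕ) (y : ℕ → (KF lam →ₐ[ℝ] MG)) (t : ℕ → Bool) (n : ℕ → ℤ), LChain S Z P r y t n →
    1 ≤ r → y 0 (inL Z P (t 0)) ∉ acl ℝ ({y (r - 1) (outL Z P (t (r - 1)))} : Set MG)) →
  FreePair alpha (germ β)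

/-- **(LEl)** Elimination: if `u, v` are functions in `KF 1`, algebraically independent, and `f` (an
arbitrary function) satisfies a polynomial equation over `ℝ(u, v)`, then it satisfies one over
`ℝ(x, e^x)`.
Proof: let `G` be the ring of germs at `+∞` of all functions, `HG ⊆ G` the domain of analytic ones,
`R₀ = ℝ[x, e^x] ⊆ HG` (`Algebra.adjoin`), and `R₁ ⊆ HG` the subalgebra of the elements which are
algebraic over `R₀` (`Subalgebra.algebraicClosure`, or `R₀[u, v]`). `u, v ∈ R₁` (as `mmk u ∈ KF 1` is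
algebraic over `ℝ(x, e^x)`, see `mem_acl'` in EX/Acl; `HG → MG` is injective). The equation of `f`
is a nonzero polynomial over `R₁` (nonzero because `u, v` are algebraically independent over `ℝ`)
with the root `f ∈ G`, so `f` is algebraic over `R₁`, hence over `R₀`
(`IsAlgebraic.restrictScalars`, `R₀, R₁` domains); this is a nonzero polynomial in `Y` with
coefficients in `ℝ[x, e^x]`, and `x, e^x` are algebraically independent (`NK`), so it comes from a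
nonzero `Q' ∈ ℝ[X, E, Y]`. -/
def LEl : Prop := ∀ (u v : ℝ → ℝ) (hu : EvAn u) (hv : EvAn v), mmk u hu ∈ KF 1 →
  mmk v hv ∈ KF 1 → mmk u hu ∉ acl ℝ (∅ : Set MG) → mmk v hv ∉ acl ℝ ({mmk u hu} : Set MG) →
  ∀ f : ℝ → ℝ, (∃ Q : MvPolynomial (Fin 3) ℝ, Q ≠ 0 ∧
    ∀ᶠ x in atTop, MvPolynomial.aeval ![u x, v x, f x] Q = 0) →
  ∃ Q : MvPolynomial (Fin 3) ℝ, Q ≠ 0 ∧
    ∀ᶠ x in atTop, MvPolynomial.aeval ![x, Real.exp (1 * x), f x] Q = 0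

/-- **(LK3)** A polynomial relation over `ℝ(x, e^x)` gives an element of `KF 1`; a relation over
`ℝ(x)` is one over `ℝ(x, e^x)`.
Proof: (1) `Dic` (1) with `k = ⊤ : Subfield ℝ` and `acl_sub_real` (copy it from EX/Fin.lean), or
directly as in the proof of `Dic`; (2) `MvPolynomial.rename ![0, 2]`. -/
def LK3 : Prop :=
  (∀ (f : ℝ → ℝ) (hf : EvAn f), (∃ Q : MvPolynomial (Fin 3) ℝ, Q ≠ 0 ∧
    ∀ᶠ x in atTop, MvPolynomial.aeval ![x, Real.exp (1 * x), f x] Q = 0) → mmk f hf ∈ KF 1) ∧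
  ∀ f : ℝ → ℝ, (∃ Q : MvPolynomial (Fin 2) ℝ, Q ≠ 0 ∧
    ∀ᶠ x in atTop, MvPolynomial.aeval ![x, f x] Q = 0) →
    ∃ Q : MvPolynomial (Fin 3) ℝ, Q ≠ 0 ∧
      ∀ᶠ x in atTop, MvPolynomial.aeval ![x, Real.exp (1 * x), f x] Q = 0

/-- **(LAf)** An algebraic function with constant derivative is affine.
Proof: `F ∈ acl {X}` gives `DE F = 0` (`LFac`). With the point `y` of `RealSys.pt` for the
identity (`y F = mmk f`, `y X = xx`) and `Cr` (`δ = S.D`): `S.D (mmk f) = y (DX F) * S.D xx`; the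
element `y (DX F)` is algebraic over `ℝ`, so it is a real number (`Dst`, `S.const`), and
`S.D xx ≠ 0` (`S.pt_ne`). To have `S.D` explicitly: `NDer` gives a derivation `D'` of `MG` with
`D' (mmk f) = mmk (deriv f)`; use `Cr` for `D'`: `mmk (deriv f) = y (DX F) * D' xx = a`,
`a = y (DX F)` is killed by `D'`, so it is a real number `a` (`NDer`), so `deriv f = a` near `+∞`, and
`f x = a x + c` there (an analytic function on `(M, ∞)` with constant derivative). -/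
def LAf : Prop := ∀ (S : Sys (KF 1) MG), RealSys 1 S → ∀ (F : KF 1) (f : ℝ → ℝ) (hf : EvAn f),
  (F : MG) = mmk f hf → F ∈ acl ℝ ({S.X} : Set (KF 1)) → S.DX F ∈ acl ℝ (∅ : Set (KF 1)) →
  ∃ a c : ℝ, ∀ᶠ x in atTop, f x = a * x + c

/-- **(LLg)** There is an order isomorphism `ℓ` of `ℝ` equal to `log` near `+∞`, in `AnG`.
Proof: `ℓ x = log x` for `x ≥ 1` and `x - 1` for `x ≤ 1`, with inverse `e^t` for `t ≥ 0` and
`t + 1` for `t ≤ 0`. -/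
def LLg : Prop := ∃ ℓ ∈ AnG, (∀ᶠ x in atTop, ℓ x = Real.log x) ∧
  ∀ᶠ x in atTop, OrderIso.symm ℓ x = Real.exp (1 * x)

/-- **(LC1)** If `β = a log h + c` near `+∞` and `h` is algebraic, then `a > 0` and `β⁻¹` is algebraic
over `ℝ(e^{x/a})`. Proof: `a > 0` because `β, log h → +∞`. Let `Q(x, h x) = 0` near `+∞`; for large
`u = β x`, `x = β⁻¹ u`, `h x = e^{(u - c)/a} = e^{-c/a} e^{u/a}`, so
`Q(β⁻¹ u, e^{-c/a} E) = 0` with `E = e^{u/a}`: take `Q'(E, Y) = Q(Y, e^{-c/a} E)`. -/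
def LC1 : Prop := ∀ (h β : ℝ ≃o ℝ) (a c : ℝ), (∀ᶠ x in atTop, β x = a * Real.log (h x) + c) →
  (∃ Q : MvPolynomial (Fin 2) ℝ, Q ≠ 0 ∧
    ∀ᶠ x in atTop, MvPolynomial.aeval ![x, h x] Q = 0) →
  0 < a ∧ ∃ Q : MvPolynomial (Fin 2) ℝ, Q ≠ 0 ∧
    ∀ᶠ x in atTop, MvPolynomial.aeval ![Real.exp (a⁻¹ * x), OrderIso.symm β x] Q = 0

/-- **(LNf)** If `β = a log x + c` near `+∞`, then `α, β` are not free generators, and `FreePair a b`
is equivalent to `FreePair a b⁻¹`.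
Proof: (1) `γ = β⁻¹ α β` is the germ of `e^{1/a} x` (`a > 0`), so `γ α γ⁻¹` is the germ of
`x + e^{1/a}` and commutes with `α`: the word `[a, (b⁻¹ a b) a (b⁻¹ a b)⁻¹]` is trivial on
`α, β`, but it is not `1` in the free group (`decide` on `FreeGroup.toWord`, or map the free
group to a finite group, e.g. permutations, where it is not trivial). (2) the automorphism
`b ↦ b⁻¹` of the free group, compare `MP52aaf2.FreePair.equiv` in Main.lean. -/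
def LNf : Prop :=
  (∀ (β : ℝ ≃o ℝ) (a c : ℝ), (∀ᶠ x in atTop, β x = a * Real.log x + c) →
    ¬ FreePair alpha (germ β)) ∧
  ∀ a b : GermGroup, FreePair a b ↔ FreePair a b⁻¹

end MP52exp
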